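import Pool.Agent.H78.UN.Targets

/-!
# Semantic derivations with unate lines: definitions, second version
-/

namespace Pool.Agent.H78.UN2

open Finset Pool.Agent.H78.UN

/-- A semantic dag-like derivation from the CNF formula `F` with `S` lines, all of them unate.

* `A v` is the set of the assignments which falsify line `v`.
* Line `v` depends only on the variables in `W v`, and in each of them it is monotone: if `z`
  falsifies the line and `z'` is obtained from `z` by replacing the values at some variables of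
  `W v` by those of `o v`, and by changing the values of variables outside `W v` in any way, then
  `z'` falsifies the line as well.
* `E v` is a set of assignments which are ignored when line `v` is inferred (brute force).
* Every line either follows from at most `q` clauses of `F`, or it follows from at most `B`
  earlier lines (which can be used many times).
* A line is light if it depends on at most `s` variables, and heavy otherwise. The number `run v`
  bounds the number of consecutive heavy lines directly after line `v` on a path from a line to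
  one of its premises. So no path has more than `D` consecutive heavy lines after its first
  line. -/
structure UDer {V : Type} [DecidableEq V] (F : Finset (Clause V)) (B q s D S : ℕ) where
  A : Fin S → Set (V → Bool)
  W : Fin S → Finset V
  o : Fin S → V → Bool
  unate : ∀ v, ∀ z ∈ A v, ∀ z' : V → Bool, (∀ x ∈ W v, z' x = z x ∨ z' x = o v x) → z' ∈ A v
  E : Fin S → Finset (V → Bool)
  run : Fin S → ℕ
  run_le : ∀ v, run v ≤ D
  rule : ∀ v,
    (∃ Q : Finset (Clause V), Q ⊆ F ∧ Q.card ≤ q ∧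
      ∀ z ∈ A v, z ∉ E v → ∃ C ∈ Q, Falsified C z) ∨
    (∃ P : Finset (Fin S), P.card ≤ B ∧
      (∀ a ∈ P, a < v ∧ ((W a).card ≤ s ∨ run a < run v)) ∧
      ∀ z ∈ A v, z ∉ E v → ∃ a ∈ P, z ∈ A a)

/-- The cost of a derivation: the number of lines plus the number of assignments treated by brute
force. -/
def UDer.cost {V : Type} [DecidableEq V] {F : Finset (Clause V)} {B q s D S : ℕ}
    (R : UDer F B q s D S) : ℕ := S + ∑ v, (R.E v).card

/-- The radius of the neighbourhood of the hidden assignment which the adversary uses. -/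
def rad (s r p m l q : ℕ) : ℕ := s + r * p + m * (kap r l * p) + kap r l * q

/-- ADV: a good assignment which falsifies a line and is far from all sets `E` has a constraint
almost inside its certificate. -/
def T_ADV : Prop := ∀ (V : Type) [Fintype V] [DecidableEq V] (M p p5 r l t m B q s D S : ℕ)
    (I : Inst V M l) (F : Finset (Clause V)),
  E5 I.sc p5 r l → 1 ≤ l → 2 * l ≤ r → p ≤ p5 → q ≤ p5 → 1 ≤ t → D < m * t →
  (∀ C ∈ F, ∃ c, ∀ z, Falsified C z → I.vio c z) → ∀ R : UDer F B q s D S,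
  ∃ P : Fin S → Finset (Fin S), (∀ v, (P v).card ≤ B) ∧
    ∀ v, ∀ zs ∈ R.A v, Good I.sc r p t (rad s r p m l q) R.W R.o P zs →
      (∀ z, dis z zs ≤ rad s r p m l q → ∀ u, z ∉ R.E u) →
      ∃ c, (I.sc c \ ag (R.W v) (R.o v) zs).card < r

/-- CNT: the number of assignments which are not good. -/
def T_CNT : Prop := ∀ (V : Type) [Fintype V] [DecidableEq V] (M p e r k t f B S Bl : ℕ)
    (sc : Fin M → Finset V) (W : Fin S → Finset V) (o : Fin S → V → Bool)
    (P : Fin S → Finset (Fin S)) (Z : Finset (V → Bool)),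
  E1 sc p e → (∀ c, (sc c).card = k) → (∀ v, (P v).card ≤ B) → 1 ≤ B →
  (∀ z0 : V → Bool, (Finset.univ.filter (fun zs => dis z0 zs ≤ f)).card ≤ Bl) →
  (∀ zs ∈ Z, ¬ Good sc r p t f W o P zs) →
  Z.card ≤ Bl * (S * ((t + 1) * B ^ t) * ((M * ((t + 1) * (B + 1)) * Cr k r ^ 2) ^ p * 2 ^ e))

/-- CNE: the number of assignments close to a set `E v`. -/
def T_CNE : Prop := ∀ (V : Type) [Fintype V] [DecidableEq V] (f S Bl : ℕ)
    (E : Fin S → Finset (V → Bool)) (Z : Finset (V → Bool)),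
  (∀ z0 : V → Bool, (Finset.univ.filter (fun zs => dis z0 zs ≤ f)).card ≤ Bl) →
  (∀ zs ∈ Z, ∃ z, dis z zs ≤ f ∧ ∃ u, z ∈ E u) → Z.card ≤ Bl * ∑ u, (E u).card

/-- SML: few assignments have a constraint almost inside their certificate. -/
def T_SML : Prop := ∀ (V : Type) [Fintype V] [DecidableEq V] (M r k : ℕ)
    (sc : Fin M → Finset V) (W : Finset V) (o : V → Bool) (Z : Finset (V → Bool)),
  (∀ c, (sc c).card = k) → (∀ z ∈ Z, ∃ c, (sc c \ ag W o z).card < r) →
  Z.card * 2 ^ k ≤ M * Cr k r ^ 2 * 2 ^ Fintype.card V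

/-- HC: a colouring of the cube with few colours in which close points get different colours. -/
def T_HC : Prop := ∀ k d : ℕ, ∃ h : (Fin k → Bool) → Fin (Cr k (d + 1)),
  ∀ x y, x ≠ y → hammingDist x y ≤ d → h x ≠ h y

open Classical in
/-- XC: in most families all scopes are different. -/
def T_XC : Prop := ∀ n M k : ℕ, 4 * M ^ 2 ≤ n.choose k →
  4 * (Finset.univ.filter (fun τ : Fin M → (Fin k ↪ Fin n) =>
    ¬ Function.Injective (fun c => scp τ c))).card ≤
    Fintype.card (Fin M → (Fin k ↪ Fin n))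

open Classical in
/-- XG: the colours can be chosen such that every assignment violates about the expected number
of constraints, and the number of forbidden patterns is about the expected one. -/
def T_XG : Prop := ∀ a : ℕ, 1 ≤ a → ∃ C0 n0 : ℕ, 1 ≤ C0 ∧ ∀ n, n0 ≤ n → ∀ (k L : ℕ), 1 ≤ L →
  ∀ (τ : Fin (L * (C0 * n)) → (Fin k ↪ Fin n)) (h : (Fin k → Bool) → Fin L),
  ∃ b : Fin (L * (C0 * n)) → Fin L,
    (∀ z : Fin n → Bool, (a - 1) * (C0 * n) ≤
      a * (Finset.univ.filter (fun c => h (z ∘ τ c) = b c)).card) ∧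
    a * ∑ c, (Finset.univ.filter (fun x : Fin k → Bool => h x = b c)).card ≤
      (a + 1) * (C0 * n * 2 ^ k)

open Classical in
/-- FRM: the formula. -/
def T_FRM : Prop := ∀ (n M k L l : ℕ) (τ : Fin M → (Fin k ↪ Fin n))
    (h : (Fin k → Bool) → Fin L) (b : Fin M → Fin L),
  (∀ x y, x ≠ y → hammingDist x y ≤ 2 * l → h x ≠ h y) →
  Function.Injective (fun c => scp τ c) →
  ∃ (I : Inst (Fin n) M l) (F : Finset (Clause (Fin n))),
    I.sc = scp τ ∧ (∀ C ∈ F, C.card = k) ∧
    F.card ≤ ∑ c, (Finset.univ.filter (fun x : Fin k → Bool => h x = b c)).card ∧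
    (∀ z : Fin n → Bool, (Finset.univ.filter (fun c => h (z ∘ τ c) = b c)).card ≤
      (F.filter (fun C => Falsified C z)).card) ∧
    ∀ C ∈ F, ∃ c, ∀ z, Falsified C z → I.vio c z

open Classical in
/-- AB: the abstract theorem. -/
def T_AB : Prop := ∀ a : ℕ, 1 ≤ a → ∃ C0 n0 : ℕ, 1 ≤ C0 ∧
  ∀ n k p p5 e r l d : ℕ, n0 ≤ n → 1 ≤ n → 1 ≤ r → 2 ≤ l → 2 * l ≤ r → p ≤ p5 →
  k ≤ d * r → Cr k (2 * l + 1) * (C0 * n) ≤ 2 ^ k → k ≤ n →
  4 * (2 ^ n * (Cr k (2 * l + 1) * (C0 * n)) ^ p * (n - e) ^ (k * p)) ≤ n ^ (k * p) →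
  2 ^ (4 * d + 6) * (k * p5) ≤ l * n → 4 * ((n + 1) * (p5 + 1)) ≤ 4 ^ r →
  4 * (Cr k (2 * l + 1) * (C0 * n)) ^ 2 ≤ n.choose k →
  ∃ F : Finset (Clause (Fin n)), (∀ C ∈ F, C.card = k) ∧ a * F.card ≤ (a + 1) * (C0 * n * 2 ^ k) ∧
    (∀ z, (a - 1) * (C0 * n) ≤ a * (F.filter (fun C => Falsified C z)).card) ∧
    ∀ t m B q s D S Bl : ℕ, 1 ≤ B → q ≤ p5 → 1 ≤ t → D < m * t →
      (∀ z0 : Fin n → Bool, (Finset.univ.filter
        (fun zs => dis z0 zs ≤ rad s r p m l q)).card ≤ Bl) →
      ∀ (R : UDer F B q s D S) (v : Fin S),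
      (Finset.univ.filter (fun z => z ∈ R.A v)).card * 2 ^ k ≤
        Bl * (S * ((t + 1) * B ^ t) *
          (((Cr k (2 * l + 1) * (C0 * n)) * ((t + 1) * (B + 1)) * Cr k r ^ 2) ^ p * 2 ^ e)) * 2 ^ k +
        Bl * (∑ u, (R.E u).card) * 2 ^ k +
        (Cr k (2 * l + 1) * (C0 * n)) * Cr k r ^ 2 * 2 ^ n

open Classical in
/-- The main theorem. -/
def T_MAIN : Prop := ∀ ε : ℝ, 0 < ε → ∃ K n0 : ℕ, ∀ n, n0 ≤ n → ∀ w : ℕ,
  K * Nat.log 2 n ≤ w → K * w ≤ n →
  ∃ F : Finset (Clause (Fin n)), (∀ C ∈ F, C.card = w) ∧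
    (F.card : ℝ) ≤ (2 : ℝ) ^ ((1 + ε) * w) ∧
    (∀ z, (1 - ε) * F.card ≤ 2 ^ w * (F.filter (fun C => Falsified C z)).card) ∧
    ∀ B q s D S : ℕ, 2 ≤ B → K * q ≤ n → K * s ≤ n → K * Nat.log 2 B ≤ w →
      K * (D * Nat.log 2 B) ≤ n * w →
      ∀ R : UDer F B q s D S, (R.cost : ℝ) < (2 : ℝ) ^ ((1 - ε) * n) → ∀ v,
        ((Finset.univ.filter (fun z => z ∈ R.A v)).card : ℝ) ≤ (2 : ℝ) ^ (n - (1 - ε) * w)

end Pool.Agent.H78.UN2
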