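import Pool.Agent.H78.UN.Steps
import Pool.Agent.H78.UN2.Defs

/-! The adversary, second version. -/

namespace Pool.Agent.H78.UN2

open Finset Pool.Agent.H78.UN

theorem adv (hFIX : T_FIX) (hSTA : T_STA) (hSTE : T_STE) (hBAS : T_BAS) (hRES : T_RES) :
    T_ADV := by
  classical
  intro V _ _ M p p5 r l t m B q s D S I F h5' hl hlr hp5 hqp ht hD hF R
  have h5 : E5 I.sc p r l := fun N X hN h => h5' N X (hN.trans hp5) h
  have hA := R.unate
  have hP : ∀ v, ∃ Pv : Finset (Fin S), Pv.card ≤ B ∧
      ((∃ Q : Finset (Clause V), Q ⊆ F ∧ Q.card ≤ q ∧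
        ∀ z ∈ R.A v, z ∉ R.E v → ∃ C ∈ Q, Falsified C z) ∨
      ((∀ a ∈ Pv, a < v ∧ ((R.W a).card ≤ s ∨ R.run a < R.run v)) ∧
        ∀ z ∈ R.A v, z ∉ R.E v → ∃ a ∈ Pv, z ∈ R.A a)) := by
    intro v
    rcases R.rule v with h | ⟨Pv, h1, h2, h3⟩
    · exact ⟨∅, by simp, Or.inl h⟩
    · exact ⟨Pv, h1, Or.inr ⟨h2, h3⟩⟩
  choose P hPB hP using hP
  refine ⟨P, hPB, ?_⟩
  intro vr zs hzs hG hE
  by_contra hcon
  push Not at hcon
  have hlt : ∀ {v : Fin S} {j i : ℕ}, R.run v + j + i * t ≤ D → i < m := by
    intro v j i h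
    by_contra h1
    have h2 := Nat.mul_le_mul_right t (not_lt.1 h1)
    omega
  have hff : ∀ i, i ≤ m → s + r * p + i * (kap r l * p) ≤ rad s r p m l q := by
    intro i hi
    have := Nat.mul_le_mul_right (kap r l * p) hi
    unfold rad
    omega
  have hff' : ∀ i, i ≤ m → s + r * p + i * (kap r l * p) + kap r l * q ≤ rad s r p m l q := by
    intro i hi
    have := Nat.mul_le_mul_right (kap r l * p) hi
    unfold rad
    omega
  -- distance after the phase
  have hdist : ∀ {v0 : Fin S} {z0 : V → Bool} {j i : ℕ} {v : Fin S} {U : Finset (Fin S)}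
      {z : V → Bool} {J : Finset (Fin M)},
      State I.sc I.vio r (kap r l) R.A R.W R.o P v0 z0 j v U z J → j ≤ t → i < m →
      dis z0 zs ≤ s + r * p + i * (kap r l * p) →
      dis z zs ≤ s + r * p + (i + 1) * (kap r l * p) := by
    intro v0 z0 j i v U z J hS hj hi hd
    have h1 := hG z0 (hd.trans (hff i hi.le)) v0 j hj _ hS.path J hS.cov
    have h2 := dis_tri z z0 zs
    have h3 := hS.dist
    have h4 : kap r l * J.card ≤ kap r l * p := Nat.mul_le_mul_left _ h1.le
    have h5 : (i + 1) * (kap r l * p) = i * (kap r l * p) + kap r l * p := by ring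
    omega
  have key : ∀ v : Fin S, ∀ (v0 : Fin S) (z0 : V → Bool) (j i : ℕ) (U : Finset (Fin S))
      (z : V → Bool) (J : Finset (Fin M)),
      State I.sc I.vio r (kap r l) R.A R.W R.o P v0 z0 j v U z J → j ≤ t →
      dis z0 zs ≤ s + r * p + i * (kap r l * p) → R.run v + j + i * t ≤ D → False := by
    intro v
    induction v using WellFoundedLT.induction with
    | ind v IH =>
      -- the case of a phase which is not finished
      have main : ∀ (v0 : Fin S) (z0 : V → Bool) (j i : ℕ) (U : Finset (Fin S))
          (z : V → Bool) (J : Finset (Fin M)),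
          State I.sc I.vio r (kap r l) R.A R.W R.o P v0 z0 j v U z J → j < t →
          dis z0 zs ≤ s + r * p + i * (kap r l * p) → R.run v + j + i * t ≤ D → False := by
        intro v0 z0 j i U z J hS hj hd hr
        have him := hlt hr
        have hzz := hdist hS hj.le him hd
        have hzE : z ∉ R.E v := hE z (hzz.trans (hff (i + 1) him)) v
        rcases hP v with ⟨Q, hQF, hQ, hQ3⟩ | ⟨hp1, hp2⟩
        · -- a leaf
          have hvU : v ∈ U := PS_sub hS.path (Finset.mem_insert_self _ _)
          have hne : Nonempty (Fin M) := by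
            obtain ⟨C, hC, -⟩ := hQ3 z hS.mem hzE
            exact ⟨(hF C (hQF hC)).choose⟩
          have hF' := hF
          choose! g hg using hF'
          obtain ⟨Y, hY1, hY2, hY3, hY4⟩ := hFIX V M p5 r l I (Q.image g \ J)
            (ag (R.W v) (R.o v) z ∪ VJ I.sc J) z h5' hl hlr
            ((Finset.card_le_card Finset.sdiff_subset).trans
              (Finset.card_image_le.trans (hQ.trans hqp)))
            (fun c hc => by
              rw [ag_union hS.off]
              exact hS.clo v hvU c (Finset.mem_sdiff.1 hc).2)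
          have hmem : flp z Y ∈ R.A v := mem_flp hA hS.mem fun x hx h =>
            Finset.disjoint_left.1 hY1 hx (Finset.mem_union_left _ h)
          have hYE : flp z Y ∉ R.E v := by
            refine hE _ ?_ v
            have e1 := dis_tri (flp z Y) z zs
            have e2 := dis_flp z Y
            have e3 : kap r l * (Q.image g \ J).card ≤ kap r l * q :=
              Nat.mul_le_mul_left _ ((Finset.card_le_card Finset.sdiff_subset).trans
                (Finset.card_image_le.trans hQ))
            have e4 := hff' (i + 1) him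
            omega
          obtain ⟨C, hC, hfal⟩ := hQ3 _ hmem hYE
          have hv := hg C (hQF hC) _ hfal
          by_cases hcJ : g C ∈ J
          · refine hS.sat _ hcJ (I.loc _ _ _ ?_ hv)
            intro x hx
            have h1 : x ∉ Y := fun h => Finset.disjoint_left.1 hY1 h
              (Finset.mem_union_right _ (sc_sub_VJ hcJ hx))
            exact flp_of_notMem h1
          · exact hY3 _ (Finset.mem_sdiff.2 ⟨Finset.mem_image_of_mem _ hC, hcJ⟩) hv
        · obtain ⟨a, ha, hza⟩ := hp2 z hS.mem hzE
          obtain ⟨hav, hcase⟩ := hp1 a ha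
          rcases hcase with hlight | hheavy
          · have haU : a ∈ U := PS_sub hS.path (Finset.mem_insert_of_mem ha)
            have hB := hBAS V M r l (kap r l) S I R.A R.W R.o P z0 v0 v a j U z J hS haU hza
            have hd2 := hzz.trans (hff (i + 1) him)
            obtain ⟨z', hB', hd'⟩ := hRES V M p r l t _ s S I R.A R.W R.o P zs z a hA hG hd2 hB
              hlight
            obtain ⟨z2, J2, hS2⟩ := hSTA V M p r l t _ S I R.A R.W R.o P zs z' a h5 hl hlr hA hG
              (hd'.trans (by simpa using hff 0 (Nat.zero_le _))) hB'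
            refine IH a hav a z' 0 0 _ z2 J2 hS2 (Nat.zero_le _) ?_ ?_
            · simpa using hd'
            · simpa using R.run_le a
          · obtain ⟨z', J', hS'⟩ := hSTE V M p r l t _ S I R.A R.W R.o P zs z0 v0 v a j U z J h5 hl
              hlr hA hG (hd.trans (hff i him.le)) hj hS ha hza
            exact IH a hav v0 z0 (j + 1) i _ z' J' hS' hj hd (by omega)
      intro v0 z0 j i U z J hS hj hd hr
      rcases Nat.lt_or_eq_of_le hj with hj' | hj'
      · exact main v0 z0 j i U z J hS hj' hd hr
      · have him := hlt hr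
        have hvU : v ∈ U := PS_sub hS.path (Finset.mem_insert_self _ _)
        have hB := hBAS V M r l (kap r l) S I R.A R.W R.o P z0 v0 v v j U z J hS hvU hS.mem
        have hd2 := hdist hS hj him hd
        obtain ⟨z2, J2, hS2⟩ := hSTA V M p r l t _ S I R.A R.W R.o P zs z v h5 hl hlr hA hG
          (hd2.trans (hff (i + 1) him)) hB
        refine main v z 0 (i + 1) _ z2 J2 hS2 ht hd2 ?_
        have h5 : (i + 1) * t = i * t + t := by ring
        omega
  have hBr : Base I.sc I.vio r R.A R.W R.o vr zs := by
    refine ⟨hzs, ∅, Cov.nil, ?_, fun c hc => absurd hc (Finset.notMem_empty _)⟩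
    intro u hu c _
    rw [Finset.mem_singleton.1 hu, VJ_empty, Finset.union_empty]
    exact hcon c
  obtain ⟨z2, J2, hS2⟩ := hSTA V M p r l t _ S I R.A R.W R.o P zs zs vr h5 hl hlr hA hG
    (by rw [dis_self]; exact Nat.zero_le _) hBr
  exact key vr vr zs 0 0 _ z2 J2 hS2 (Nat.zero_le _) (by rw [dis_self]; exact Nat.zero_le _)
    (by simpa using R.run_le vr)

end Pool.Agent.H78.UN2
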