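import Pool.Agent.H78.UN.SC
import Pool.Agent.H78.UN2.Defs

/-! The counts, second version. -/

set_option linter.unusedSectionVars false

namespace Pool.Agent.H78.UN2

open Finset Pool.Agent.H78.UN

/-- The number of assignments which are not good. -/
theorem cnt (hPSC : T_PSC) (hSC : T_SC) : T_CNT := by
  classical
  intro V _ _ M p e r k t f B S Bl sc W o P Z0 h1 hk hP hB hBl hbad
  set G : ℕ := (M * ((t + 1) * (B + 1)) * Cr k r ^ 2) ^ p * 2 ^ e with hG
  set Z : Finset (Fin S) → Finset (V → Bool) := fun U =>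
    Finset.univ.filter (fun z0 => ∃ J, Cov sc r W o U z0 J ∧ p ≤ J.card) with hZ
  have hZc : ∀ v0 : Fin S, ∀ j ≤ t, ∀ y ∈ PS P v0 j, (Z y.2).card ≤ G := by
    intro v0 j hj y hy
    refine (hSC V M p e r k S sc W o y.2 h1 hk _ fun z hz => (Finset.mem_filter.1 hz).2).trans ?_
    refine Nat.mul_le_mul_right _ (Nat.pow_le_pow_left ?_ _)
    refine Nat.mul_le_mul_right _ (Nat.mul_le_mul_left _ ?_)
    exact ((hPSC S B j P v0 hP).2 y hy).trans (Nat.mul_le_mul_right _ (by omega))
  have hsub : Z0 ⊆ (Finset.univ : Finset (Fin S)).biUnion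
      (fun v0 => (Finset.range (t + 1)).biUnion (fun j => (PS P v0 j).biUnion
        (fun y => (Z y.2).biUnion (fun z0 => Finset.univ.filter (fun zs => dis z0 zs ≤ f))))) := by
    intro zs hzs
    have h := hbad zs hzs
    unfold Good at h
    push Not at h
    obtain ⟨z0, hz0, v0, j, hj, y, hy, J, hJ, hp⟩ := h
    refine Finset.mem_biUnion.2 ⟨v0, Finset.mem_univ _, ?_⟩
    refine Finset.mem_biUnion.2 ⟨j, Finset.mem_range.2 (by omega), ?_⟩
    refine Finset.mem_biUnion.2 ⟨y, hy, ?_⟩
    refine Finset.mem_biUnion.2 ⟨z0, Finset.mem_filter.2 ⟨Finset.mem_univ _, J, hJ, hp⟩, ?_⟩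
    exact Finset.mem_filter.2 ⟨Finset.mem_univ _, hz0⟩
  refine (Finset.card_le_card hsub).trans ?_
  have hy : ∀ v0 : Fin S, ∀ j ≤ t, ∀ y ∈ PS P v0 j,
      ((Z y.2).biUnion (fun z0 => Finset.univ.filter (fun zs => dis z0 zs ≤ f))).card ≤ G * Bl := by
    intro v0 j hj y hy
    refine Finset.card_biUnion_le.trans ?_
    calc ∑ z0 ∈ Z y.2, (Finset.univ.filter (fun zs => dis z0 zs ≤ f)).card
        ≤ ∑ z0 ∈ Z y.2, Bl := Finset.sum_le_sum fun z0 _ => hBl z0
      _ = (Z y.2).card * Bl := by rw [Finset.sum_const, smul_eq_mul]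
      _ ≤ G * Bl := Nat.mul_le_mul_right _ (hZc v0 j hj y hy)
  have hj : ∀ v0 : Fin S, ∀ j ≤ t, ((PS P v0 j).biUnion (fun y => (Z y.2).biUnion
      (fun z0 => Finset.univ.filter (fun zs => dis z0 zs ≤ f)))).card ≤ B ^ t * (G * Bl) := by
    intro v0 j hj
    refine Finset.card_biUnion_le.trans ((Finset.sum_le_sum fun y h => hy v0 j hj y h).trans ?_)
    rw [Finset.sum_const, smul_eq_mul]
    exact Nat.mul_le_mul_right _ (((hPSC S B j P v0 hP).1).trans (Nat.pow_le_pow_right hB hj))
  have hv : ∀ v0 : Fin S, ((Finset.range (t + 1)).biUnion (fun j => (PS P v0 j).biUnion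
      (fun y => (Z y.2).biUnion (fun z0 => Finset.univ.filter (fun zs => dis z0 zs ≤ f))))).card ≤
      (t + 1) * (B ^ t * (G * Bl)) := by
    intro v0
    refine Finset.card_biUnion_le.trans ((Finset.sum_le_sum fun j h => hj v0 j
      (by rw [Finset.mem_range] at h; omega)).trans ?_)
    rw [Finset.sum_const, smul_eq_mul, Finset.card_range]
  refine Finset.card_biUnion_le.trans ((Finset.sum_le_sum fun v0 _ => hv v0).trans ?_)
  rw [Finset.sum_const, smul_eq_mul, Finset.card_univ, Fintype.card_fin]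
  apply le_of_eq
  ring

/-- The number of assignments close to a set `E v`. -/
theorem cne : T_CNE := by
  classical
  intro V _ _ f S Bl E Z hBl hZ
  have hsub : Z ⊆ (Finset.univ : Finset (Fin S)).biUnion (fun u => (E u).biUnion
      (fun z => Finset.univ.filter (fun zs => dis z zs ≤ f))) := by
    intro zs hzs
    obtain ⟨z, hz, u, hu⟩ := hZ zs hzs
    exact Finset.mem_biUnion.2 ⟨u, Finset.mem_univ _, Finset.mem_biUnion.2 ⟨z, hu,
      Finset.mem_filter.2 ⟨Finset.mem_univ _, hz⟩⟩⟩
  refine (Finset.card_le_card hsub).trans (Finset.card_biUnion_le.trans ?_)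
  rw [Finset.mul_sum]
  refine Finset.sum_le_sum fun u _ => ?_
  refine Finset.card_biUnion_le.trans ((Finset.sum_le_sum fun z _ => hBl z).trans ?_)
  rw [Finset.sum_const, smul_eq_mul, mul_comm]

/-- Assignments which agree on `X`. -/
theorem agree_card {V : Type} [Fintype V] [DecidableEq V] (X : Finset V) (Z : Finset (V → Bool))
    (h : ∀ z ∈ Z, ∀ z' ∈ Z, ∀ x ∈ X, z x = z' x) : Z.card * 2 ^ X.card ≤ 2 ^ Fintype.card V := by
  have h1 := Pool.Agent.H78.UN.agree_card X Z h
  have h2 : X.card ≤ Fintype.card V := Finset.card_le_univ X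
  calc Z.card * 2 ^ X.card ≤ 2 ^ (Fintype.card V - X.card) * 2 ^ X.card :=
        Nat.mul_le_mul_right _ h1
    _ = 2 ^ Fintype.card V := by rw [← pow_add, Nat.sub_add_cancel h2]

/-- Few assignments have a constraint almost inside their certificate. -/
theorem sml : T_SML := by
  classical
  intro V _ _ M r k sc W o Z hk hZ
  set G : Fin M × (Finset V × Finset V) → Finset (V → Bool) := fun y =>
    Finset.univ.filter (fun z => y.2.1 = sc y.1 \ ag W o z ∧
      y.2.2 = y.2.1.filter (fun x => z x = true)) with hG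
  set I : Finset (Fin M × (Finset V × Finset V)) :=
    (Finset.univ : Finset (Fin M)).biUnion (fun c => ({c} : Finset (Fin M)) ×ˢ
      (Sb sc r c ×ˢ Sb sc r c)) with hI
  have hIc : I.card ≤ M * Cr k r ^ 2 := by
    rw [hI]
    refine Finset.card_biUnion_le.trans ?_
    calc ∑ c : Fin M, (({c} : Finset (Fin M)) ×ˢ (Sb sc r c ×ˢ Sb sc r c)).card
        ≤ ∑ c : Fin M, Cr k r ^ 2 := by
          refine Finset.sum_le_sum fun c _ => ?_
          rw [Finset.card_product, Finset.card_singleton, one_mul, Finset.card_product, sq]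
          exact Nat.mul_le_mul (Sb_card sc r (hk _)) (Sb_card sc r (hk _))
      _ = M * Cr k r ^ 2 := by
          rw [Finset.sum_const, smul_eq_mul, Finset.card_univ, Fintype.card_fin]
  have hsub : Z ⊆ I.biUnion G := by
    intro z hz
    obtain ⟨c, hc⟩ := hZ z hz
    refine Finset.mem_biUnion.2 ⟨(c, (sc c \ ag W o z, (sc c \ ag W o z).filter
      (fun x => z x = true))), ?_, ?_⟩
    · refine Finset.mem_biUnion.2 ⟨c, Finset.mem_univ _, ?_⟩
      refine Finset.mem_product.2 ⟨Finset.mem_singleton_self _, Finset.mem_product.2 ⟨?_, ?_⟩⟩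
      · exact Finset.mem_filter.2 ⟨Finset.mem_powerset.2 Finset.sdiff_subset, hc⟩
      · exact Finset.mem_filter.2 ⟨Finset.mem_powerset.2
          ((Finset.filter_subset _ _).trans Finset.sdiff_subset),
          lt_of_le_of_lt (Finset.card_le_card (Finset.filter_subset _ _)) hc⟩
    · exact Finset.mem_filter.2 ⟨Finset.mem_univ _, rfl, rfl⟩
  have hGc : ∀ y ∈ I, (G y).card * 2 ^ k ≤ 2 ^ Fintype.card V := by
    intro y _
    rw [← hk y.1]
    refine agree_card (sc y.1) (G y) ?_
    intro z hz z' hz' x hx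
    obtain ⟨-, e1, e2⟩ := Finset.mem_filter.1 hz
    obtain ⟨-, e1', e2'⟩ := Finset.mem_filter.1 hz'
    by_cases hxE : x ∈ y.2.1
    · have a1 : x ∈ y.2.2 ↔ z x = true := by
        rw [e2]
        simp [hxE]
      have a2 : x ∈ y.2.2 ↔ z' x = true := by
        rw [e2']
        simp [hxE]
      have a3 := a1.symm.trans a2
      cases hz : z x <;> cases hz' : z' x <;> simp_all
    · have a1 : z x = o x := by
        by_contra hne
        refine hxE ?_
        rw [e1]
        exact Finset.mem_sdiff.2 ⟨hx, fun h => hne (mem_ag.1 h).2⟩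
      have a2 : z' x = o x := by
        by_contra hne
        refine hxE ?_
        rw [e1']
        exact Finset.mem_sdiff.2 ⟨hx, fun h => hne (mem_ag.1 h).2⟩
      rw [a1, a2]
  calc Z.card * 2 ^ k ≤ (∑ y ∈ I, (G y).card) * 2 ^ k :=
        Nat.mul_le_mul_right _ ((Finset.card_le_card hsub).trans Finset.card_biUnion_le)
    _ = ∑ y ∈ I, (G y).card * 2 ^ k := Finset.sum_mul _ _ _
    _ ≤ ∑ y ∈ I, 2 ^ Fintype.card V := Finset.sum_le_sum hGc
    _ = I.card * 2 ^ Fintype.card V := by rw [Finset.sum_const, smul_eq_mul]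
    _ ≤ _ := Nat.mul_le_mul_right _ hIc

end Pool.Agent.H78.UN2
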