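import Pool.Agent.H78.UN.Num
import Pool.Agent.H78.UN2.Defs
import Pool.Agent.H69.RD.P2
import Pool.Agent.H74.RD.P1

/-! The conditions of the abstract theorem, second version. -/

namespace Pool.Agent.H78.UN2

open Finset Pool.Agent.H78.UN

/-- The parameters. -/
def pd (A j : ℕ) : ℕ := 18 * j * A ^ 2
def pl (A j k : ℕ) : ℕ := k / (6 * pd A j)
def pr (A j k : ℕ) : ℕ := k / pd A j
def pp (A n k : ℕ) : ℕ := 8 * A * n / k + 1
def pH (A j : ℕ) : ℕ := 2 ^ (8 * pd A j + 6) * (12 * pd A j)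
def pL (A j k : ℕ) : ℕ := Cr k (2 * pl A j k + 1)
def pM (A j C0 n k : ℕ) : ℕ := pL A j k * (C0 * n)
/-- A constant larger than everything. -/
def pT (A j C0 : ℕ) : ℕ := pH A j * (9 * A) + 400000 * j ^ 2 * A ^ 6 + C0

theorem facts {A j C0 T n k : ℕ} (hA : 1 ≤ A) (hj : 1 ≤ j) (hT : pT A j C0 ≤ T) (hn : 2 ≤ n)
    (hk1 : 2 ^ T * Nat.log 2 n ≤ k) (hk2 : 2 ^ T * k ≤ n) :
    1 ≤ Nat.log 2 n ∧ 400000 * j ^ 2 * A ^ 6 ≤ T ∧ T < 2 ^ T ∧ 2 ^ T ≤ k ∧
    8 * A * n < pp A n k * k ∧ pp A n k * k ≤ 9 * A * n ∧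
    pH A j * (9 * A) ≤ T ∧ C0 ≤ T ∧ 2 ≤ pl A j k ∧
    pl A j k * (6 * pd A j) ≤ k ∧ k < (pl A j k + 1) * (6 * pd A j) := by
  have h1 : 1 ≤ Nat.log 2 n := Nat.log_pos (by norm_num) hn
  have hTT : T < 2 ^ T := Nat.lt_two_pow_self
  have hbig : 400000 * j ^ 2 * A ^ 6 ≤ T := by
    unfold pT at hT
    omega
  have hbH : pH A j * (9 * A) ≤ T := by
    unfold pT at hT
    omega
  have hbC : C0 ≤ T := by
    unfold pT at hT
    omega
  have hkK : 2 ^ T ≤ k := by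
    calc 2 ^ T = 2 ^ T * 1 := (mul_one _).symm
      _ ≤ 2 ^ T * Nat.log 2 n := Nat.mul_le_mul_left _ h1
      _ ≤ k := hk1
  have hk0 : 0 < k := lt_of_lt_of_le (Nat.two_pow_pos T) hkK
  have hp1 : 8 * A * n < pp A n k * k := by
    unfold pp
    have := Nat.lt_div_mul_add (a := 8 * A * n) hk0
    calc 8 * A * n < 8 * A * n / k * k + k := this
      _ = (8 * A * n / k + 1) * k := by ring
  have hkn : k ≤ n := (Nat.le_mul_of_pos_left k (Nat.two_pow_pos T)).trans hk2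
  have hp2 : pp A n k * k ≤ 9 * A * n := by
    unfold pp
    have := Nat.div_mul_le_self (8 * A * n) k
    calc (8 * A * n / k + 1) * k = 8 * A * n / k * k + k := by ring
      _ ≤ 8 * A * n + n := Nat.add_le_add this hkn
      _ ≤ 8 * A * n + A * n := Nat.add_le_add_left (Nat.le_mul_of_pos_left n hA) _
      _ = 9 * A * n := by ring
  have hd0 : 0 < pd A j := by unfold pd; positivity
  have hG0 : 0 < 6 * pd A j := by positivity
  have hl1 : pl A j k * (6 * pd A j) ≤ k := Nat.div_mul_le_self _ _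
  have hl2 : k < (pl A j k + 1) * (6 * pd A j) := by
    unfold pl
    have := Nat.lt_div_mul_add (a := k) hG0
    calc k < k / (6 * pd A j) * (6 * pd A j) + 6 * pd A j := this
      _ = _ := by ring
  have hl3 : 2 ≤ pl A j k := by
    unfold pl
    rw [Nat.le_div_iff_mul_le hG0]
    have e1 : 12 * pd A j ≤ pH A j := Nat.le_mul_of_pos_left _ (by positivity)
    have e2 : pH A j ≤ pH A j * (9 * A) := Nat.le_mul_of_pos_right _ (by omega)
    omega
  exact ⟨h1, hbig, hTT, hkK, hp1, hp2, hbH, hbC, hl3, hl1, hl2⟩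

/-- The exponent of the bound for `M`. -/
def py (A j n k : ℕ) : ℕ :=
  j * (2 * pl A j k + 1) + (k / (18 * A ^ 2) + 1) + (2 * Nat.log 2 n + 2)

theorem L_le {A j k : ℕ} (hA : 1 ≤ A) (hjQ : 36 * A ^ 2 ≤ 2 ^ j) :
    pL A j k ≤ 2 ^ (j * (2 * pl A j k + 1) + (k / (18 * A ^ 2) + 1)) := by
  have h1 := from_ball (pL A j k) j k (2 * pl A j k + 1)
    (Cr_bound k (2 * pl A j k + 1) (2 ^ j) Nat.one_le_two_pow)
  have hAr : (0 : ℝ) < A := by exact_mod_cast hA
  have hQr : (36 : ℝ) * A ^ 2 ≤ 2 ^ j := by exact_mod_cast hjQ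
  have hQpos : (0 : ℝ) < 2 ^ j := by positivity
  have h2 : (2 : ℝ) / 2 ^ j * k ≤ (k / (18 * A ^ 2) + 1 : ℕ) := by
    have e1 : (2 : ℝ) / 2 ^ j ≤ 1 / (18 * A ^ 2) := by
      rw [div_le_div_iff₀ hQpos (by positivity)]
      linarith
    have hc : 0 < 18 * A ^ 2 := by positivity
    have e2 := Nat.lt_div_mul_add (a := k) hc
    have e3 : (k : ℝ) < ((k / (18 * A ^ 2) + 1 : ℕ) : ℝ) * (18 * A ^ 2) := by
      have e4 : k < (k / (18 * A ^ 2) + 1) * (18 * A ^ 2) := by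
        calc k < k / (18 * A ^ 2) * (18 * A ^ 2) + 18 * A ^ 2 := e2
          _ = _ := by ring
      exact_mod_cast e4
    calc (2 : ℝ) / 2 ^ j * k ≤ 1 / (18 * A ^ 2) * k :=
          mul_le_mul_of_nonneg_right e1 (by positivity)
      _ ≤ 1 / (18 * A ^ 2) * (((k / (18 * A ^ 2) + 1 : ℕ) : ℝ) * (18 * A ^ 2)) :=
          mul_le_mul_of_nonneg_left e3.le (by positivity)
      _ = _ := by field_simp
  have h3 : ((pL A j k : ℕ) : ℝ) ≤
      (2 : ℝ) ^ ((j * (2 * pl A j k + 1) + (k / (18 * A ^ 2) + 1) : ℕ) : ℝ) := by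
    refine h1.trans (Real.rpow_le_rpow_of_exponent_le (by norm_num) ?_)
    push_cast at h2 ⊢
    linarith
  rw [Real.rpow_natCast] at h3
  exact_mod_cast h3

theorem conds {A j C0 T n k : ℕ} (hA : 1 ≤ A) (hj : 1 ≤ j) (hjQ : 36 * A ^ 2 ≤ 2 ^ j)
    (hT : pT A j C0 ≤ T) (hn : 2 ≤ n) (hnA : 2 * A ≤ n)
    (hk1 : 2 ^ T * Nat.log 2 n ≤ k) (hk2 : 2 ^ T * k ≤ n) :
    1 ≤ pr A j k ∧ 2 ≤ pl A j k ∧ 2 * pl A j k ≤ pr A j k ∧ pp A n k ≤ n / pH A j ∧
    k ≤ 2 * pd A j * pr A j k ∧ pM A j C0 n k ≤ 2 ^ py A j n k ∧ 9 * A ^ 2 * py A j n k ≤ k ∧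
    pM A j C0 n k ≤ 2 ^ k ∧ k ≤ n ∧
    4 * (2 ^ n * pM A j C0 n k ^ pp A n k * (n - n / A) ^ (k * pp A n k)) ≤ n ^ (k * pp A n k) ∧
    2 ^ (4 * (2 * pd A j) + 6) * (k * (n / pH A j)) ≤ pl A j k * n ∧
    4 * ((n + 1) * (n / pH A j + 1)) ≤ 4 ^ pr A j k ∧
    4 * pM A j C0 n k ^ 2 ≤ n.choose k := by
  obtain ⟨h1, hbig, hTT, hkK, hp1, hp2, hbH, hbC, hl3, hl1, hl2⟩ := facts hA hj hT hn hk1 hk2
  have hL := L_le (k := k) hA hjQ
  have hk0 : 0 < k := lt_of_lt_of_le (Nat.two_pow_pos T) hkK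
  have hkn : k ≤ n := (Nat.le_mul_of_pos_left k (Nat.two_pow_pos T)).trans hk2
  have hd0 : 0 < pd A j := by unfold pd; positivity
  have hH0 : 0 < pH A j := by unfold pH; positivity
  have hjA : j * A ^ 2 ≤ j ^ 2 * A ^ 6 := by
    calc j * A ^ 2 = j ^ 1 * A ^ 2 := by ring
      _ ≤ j ^ 2 * A ^ 6 := Nat.mul_le_mul (Nat.pow_le_pow_right hj (by norm_num))
          (Nat.pow_le_pow_right hA (by norm_num))
  have hAA : A ^ 2 ≤ j ^ 2 * A ^ 6 := by
    calc A ^ 2 = 1 * A ^ 2 := by ring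
      _ ≤ j ^ 2 * A ^ 6 := Nat.mul_le_mul (Nat.one_le_iff_ne_zero.2 (by positivity))
          (Nat.pow_le_pow_right hA (by norm_num))
  have hA1 : A ≤ A ^ 2 := by
    calc A = A ^ 1 := (pow_one A).symm
      _ ≤ A ^ 2 := Nat.pow_le_pow_right hA (by norm_num)
  have hA2 : 1 ≤ A ^ 2 := Nat.one_le_pow _ _ hA
  have hdT : 100 * pd A j ≤ T := by
    calc 100 * pd A j = 1800 * (j * A ^ 2) := by unfold pd; ring
      _ ≤ 1800 * (j ^ 2 * A ^ 6) := Nat.mul_le_mul_left _ hjA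
      _ ≤ 400000 * j ^ 2 * A ^ 6 := by nlinarith [Nat.zero_le (j ^ 2 * A ^ 6)]
      _ ≤ T := hbig
  have hAT : 400000 * A ^ 2 ≤ T := by
    calc 400000 * A ^ 2 ≤ 400000 * (j ^ 2 * A ^ 6) := Nat.mul_le_mul_left _ hAA
      _ = 400000 * j ^ 2 * A ^ 6 := by ring
      _ ≤ T := hbig
  set l := pl A j k with hl
  set r := pr A j k with hr
  set p := pp A n k with hp
  set M := pM A j C0 n k with hM
  set d := pd A j with hd
  set ln := Nat.log 2 n with hln
  have hlr : 2 * l ≤ r := by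
    rw [hr, pr, Nat.le_div_iff_mul_le hd0]
    calc 2 * l * d ≤ l * (6 * d) := by nlinarith
      _ ≤ k := hl1
  have hrd : r * d ≤ k := Nat.div_mul_le_self _ _
  have hr1 : 1 ≤ r := by omega
  have hkr : k ≤ 2 * d * r := by
    have h2 : k < r * d + d := Nat.lt_div_mul_add hd0
    nlinarith
  have hKn : T * ln ≤ k := (Nat.mul_le_mul_right _ hTT.le).trans hk1
  have hKk : T * k ≤ n := (Nat.mul_le_mul_right _ hTT.le).trans hk2
  -- M
  have hy1 : M ≤ 2 ^ py A j n k := by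
    rw [hM, pM, py]
    have e2 : n + 1 ≤ 2 ^ (ln + 1) := Nat.lt_pow_succ_log_self (by norm_num) n
    rw [← hln, ← hl, pow_add (2 : ℕ) _ (2 * ln + 2)]
    refine Nat.mul_le_mul hL ?_
    have e3 : C0 ≤ n := by
      calc C0 ≤ T := hbC
        _ ≤ 2 ^ T := hTT.le
        _ ≤ n := hkK.trans hkn
    calc C0 * n ≤ n * n := Nat.mul_le_mul_right _ e3
      _ ≤ 2 ^ (ln + 1) * 2 ^ (ln + 1) := Nat.mul_le_mul (by omega) (by omega)
      _ = 2 ^ (2 * ln + 2) := by rw [← pow_add]; congr 1; ring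
  have hy2 : 9 * A ^ 2 * py A j n k ≤ k := by
    rw [py, ← hln, ← hl]
    have e1 : 4 * (9 * A ^ 2 * (j * (2 * l + 1))) ≤ k := by
      calc 4 * (9 * A ^ 2 * (j * (2 * l + 1))) ≤ 4 * (9 * A ^ 2 * (j * (3 * l))) :=
            Nat.mul_le_mul_left _ (Nat.mul_le_mul_left _ (Nat.mul_le_mul_left _ (by omega)))
        _ = l * (6 * d) := by rw [hd, pd]; ring
        _ ≤ k := hl1
    have e2 : 2 * (9 * A ^ 2 * (k / (18 * A ^ 2))) ≤ k := by
      calc 2 * (9 * A ^ 2 * (k / (18 * A ^ 2))) = k / (18 * A ^ 2) * (18 * A ^ 2) := by ring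
        _ ≤ k := Nat.div_mul_le_self _ _
    have e4 : 4 * (9 * A ^ 2 * (1 + (2 * ln + 2))) ≤ k := by
      calc 4 * (9 * A ^ 2 * (1 + (2 * ln + 2))) ≤ 4 * (9 * A ^ 2 * (5 * ln)) :=
            Nat.mul_le_mul_left _ (Nat.mul_le_mul_left _ (by omega))
        _ = 180 * A ^ 2 * ln := by ring
        _ ≤ T * ln := Nat.mul_le_mul_right _ (by omega)
        _ ≤ k := hKn
    have e5 : 9 * A ^ 2 * (j * (2 * l + 1) + (k / (18 * A ^ 2) + 1) + (2 * ln + 2)) =
        9 * A ^ 2 * (j * (2 * l + 1)) + 9 * A ^ 2 * (k / (18 * A ^ 2)) +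
          9 * A ^ 2 * (1 + (2 * ln + 2)) := by ring
    omega
  have hyk9 : 9 * py A j n k ≤ k := by
    refine le_trans (Nat.mul_le_mul_right _ ?_) hy2
    omega
  have hMk : M ≤ 2 ^ k := hy1.trans (Nat.pow_le_pow_right (by norm_num) (by omega))
  -- p ≤ p5
  have hpH : p ≤ n / pH A j := by
    rw [Nat.le_div_iff_mul_le hH0]
    have e1 : p * pH A j * (9 * A) ≤ n * (9 * A) := by
      calc p * pH A j * (9 * A) = p * (pH A j * (9 * A)) := by ring
        _ ≤ p * k := Nat.mul_le_mul_left _ (hbH.trans (hTT.le.trans hkK))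
        _ ≤ 9 * A * n := hp2
        _ = n * (9 * A) := by ring
    exact Nat.le_of_mul_le_mul_right e1 (by positivity)
  -- E5
  have h5 : 2 ^ (4 * (2 * d) + 6) * (k * (n / pH A j)) ≤ l * n := by
    have e1 : n / pH A j * pH A j ≤ n := Nat.div_mul_le_self _ _
    have e2 : k ≤ l * (12 * d) := by nlinarith
    calc 2 ^ (4 * (2 * d) + 6) * (k * (n / pH A j))
        ≤ 2 ^ (4 * (2 * d) + 6) * (l * (12 * d) * (n / pH A j)) :=
          Nat.mul_le_mul_left _ (Nat.mul_le_mul_right _ e2)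
      _ = l * (n / pH A j * pH A j) := by
          rw [show 4 * (2 * d) + 6 = 8 * d + 6 by ring]
          unfold pH
          rw [← hd]
          ring
      _ ≤ l * n := Nat.mul_le_mul_left _ e1
  -- E1
  have hE1 : 4 * (2 ^ n * M ^ p * (n - n / A) ^ (k * p)) ≤ n ^ (k * p) := by
    have hP2 := Pool.Agent.H69.RD.pf_P2 Pool.Agent.H74.RD.pf_P1 (2 * A) (n - n / A) n (k * p)
      (2 + n + py A j n k * p) (by omega) ?_ ?_
    · calc 4 * (2 ^ n * M ^ p * (n - n / A) ^ (k * p))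
          ≤ 4 * (2 ^ n * (2 ^ py A j n k) ^ p * (n - n / A) ^ (k * p)) :=
            Nat.mul_le_mul_left _ (Nat.mul_le_mul_right _
              (Nat.mul_le_mul_left _ (Nat.pow_le_pow_left hy1 _)))
        _ = 2 ^ (2 + n + py A j n k * p) * (n - n / A) ^ (k * p) := by
            rw [← pow_mul, pow_add, pow_add]
            ring
        _ ≤ n ^ (k * p) := hP2
    · have e1 : n < n / A * A + A := Nat.lt_div_mul_add (by omega)
      have e2 : n / A ≤ n := Nat.div_le_self _ _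
      have e3 : n ≤ 2 * (n / A * A) := by
        have : A ≤ n / A * A := by
          have : 1 ≤ n / A := (Nat.le_div_iff_mul_le (by omega)).2 (by omega)
          exact Nat.le_mul_of_pos_left _ (by omega)
        omega
      have e4 : (2 * A) * (n - n / A) + 2 * A * (n / A) = 2 * A * n := by
        rw [← Nat.mul_add, Nat.sub_add_cancel e2]
      have e5 : (2 * A - 1) * n + n = 2 * A * n := by
        calc (2 * A - 1) * n + n = ((2 * A - 1) + 1) * n := by ring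
          _ = 2 * A * n := by rw [Nat.sub_add_cancel (by omega)]
      have e6 : 2 * A * (n / A) = 2 * (n / A * A) := by ring
      omega
    · have e1 : 2 * A * (py A j n k * p) * 9 ≤ 2 * (k * p) := by
        have e2 : 9 * A * py A j n k ≤ k := by
          refine le_trans ?_ hy2
          exact Nat.mul_le_mul_right _ (Nat.mul_le_mul_left _ hA1)
        calc 2 * A * (py A j n k * p) * 9 = 2 * (9 * A * py A j n k * p) := by ring
          _ ≤ 2 * (k * p) := Nat.mul_le_mul_left _ (Nat.mul_le_mul_right _ e2)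
      have e3 : 2 * A * (2 + n) ≤ 4 * A * n := by nlinarith
      have e4 : 8 * A * n < k * p := by rw [mul_comm k p]; exact hp1
      have e5 : 2 * (4 * A * n) = 8 * A * n := by ring
      calc 2 * A * (2 + n + py A j n k * p) = 2 * A * (2 + n) + 2 * A * (py A j n k * p) := by ring
        _ ≤ k * p := by omega
  -- numbers of pairs
  have h4 : 4 * ((n + 1) * (n / pH A j + 1)) ≤ 4 ^ r := by
    have e1 : n / pH A j ≤ n := Nat.div_le_self _ _
    have e2 : n + 1 ≤ 2 ^ (ln + 1) := Nat.lt_pow_succ_log_self (by norm_num) n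
    have e3 : ln + 2 ≤ r := by
      rw [hr, pr, Nat.le_div_iff_mul_le hd0]
      calc (ln + 2) * d ≤ (3 * ln) * d := Nat.mul_le_mul_right _ (by omega)
        _ = 3 * d * ln := by ring
        _ ≤ T * ln := Nat.mul_le_mul_right _ (by omega)
        _ ≤ k := hKn
    calc 4 * ((n + 1) * (n / pH A j + 1)) ≤ 4 * (2 ^ (ln + 1) * 2 ^ (ln + 1)) :=
          Nat.mul_le_mul_left _ (Nat.mul_le_mul e2 (le_trans (by omega) e2))
      _ = 4 ^ (ln + 2) := by
          rw [show (4 : ℕ) = 2 ^ 2 by norm_num, ← pow_mul, ← pow_add, ← pow_add]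
          congr 1
          ring
      _ ≤ 4 ^ r := Nat.pow_le_pow_right (by norm_num) e3
  -- different scopes
  have h6 : 4 * M ^ 2 ≤ n.choose k := by
    have e1 : 4 * M ^ 2 ≤ 2 ^ k := by
      calc 4 * M ^ 2 ≤ 2 ^ 2 * (2 ^ py A j n k) ^ 2 :=
            Nat.mul_le_mul (by norm_num) (Nat.pow_le_pow_left hy1 _)
        _ = 2 ^ (2 + py A j n k * 2) := by rw [← pow_mul, ← pow_add]
        _ ≤ 2 ^ k := by
            refine Nat.pow_le_pow_right (by norm_num) ?_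
            have : 4 ≤ k := by omega
            omega
    have e2 : 2 ^ k ≤ k.centralBinom := by
      have e3 := Nat.four_pow_le_two_mul_self_mul_centralBinom k hk0
      have e4 : 2 * k ≤ 2 ^ k := by
        have e5 : k < 2 ^ k := Nat.lt_two_pow_self
        obtain ⟨k', rfl⟩ : ∃ k', k = k' + 1 := ⟨k - 1, by omega⟩
        have e6 : k' < 2 ^ k' := Nat.lt_two_pow_self
        rw [pow_succ]
        omega
      have e7 : (4 : ℕ) ^ k = 2 ^ k * 2 ^ k := by
        rw [← mul_pow]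
        norm_num
      rw [e7] at e3
      have e8 : 2 ^ k * 2 ^ k ≤ 2 ^ k * k.centralBinom := e3.trans (Nat.mul_le_mul_right _ e4)
      exact Nat.le_of_mul_le_mul_left e8 (Nat.two_pow_pos k)
    have e3 : k.centralBinom ≤ n.choose k := by
      rw [Nat.centralBinom_eq_two_mul_choose]
      refine Nat.choose_le_choose k ?_
      calc 2 * k ≤ T * k := Nat.mul_le_mul_right _ (by omega)
        _ ≤ n := hKk
    exact e1.trans (e2.trans e3)
  exact ⟨hr1, hl3, hlr, hpH, hkr, hy1, hy2, hMk, hkn, hE1, h5, h4, h6⟩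

end Pool.Agent.H78.UN2
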