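import Pool.Agent.H78.UN2.Num2

/-! The main theorem from the abstract theorem, second version. -/

namespace Pool.Agent.H78.UN2

open Finset Pool.Agent.H78.UN

/-- Elementary consequences of the choice of the parameters. -/
theorem small {ε : ℝ} {A j C0 T n k : ℕ} (hA : 1 ≤ A) (hε : 0 < ε) (hAε : (20 : ℝ) ≤ ε * A)
    (hj : 1 ≤ j) (hT : pT A j C0 ≤ T) (hn : 2 ≤ n)
    (hk1 : 2 ^ T * Nat.log 2 n ≤ k) (hk2 : 2 ^ T * k ≤ n) :
    (20 : ℝ) ≤ ε * k ∧ 20 * (k : ℝ) ≤ ε * n ∧ (1 : ℝ) ≤ k ∧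
      5 * (Nat.log 2 n : ℝ) ≤ ε * k ∧ C0 ≤ n := by
  obtain ⟨h1, hbig, hTT, hkK, hp1, hp2, hbH, hbC, hl3, hl1, hl2⟩ := facts hA hj hT hn hk1 hk2
  have hkn : k ≤ n := (Nat.le_mul_of_pos_left k (Nat.two_pow_pos T)).trans hk2
  have hA6 : A ≤ j ^ 2 * A ^ 6 := by
    calc A = 1 * A ^ 1 := by ring
      _ ≤ j ^ 2 * A ^ 6 := Nat.mul_le_mul (Nat.one_le_iff_ne_zero.2 (by positivity))
          (Nat.pow_le_pow_right hA (by norm_num))
  have hAT : 400000 * A ≤ T := by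
    calc 400000 * A ≤ 400000 * (j ^ 2 * A ^ 6) := Nat.mul_le_mul_left _ hA6
      _ = 400000 * j ^ 2 * A ^ 6 := by ring
      _ ≤ T := hbig
  have hεT : (20 : ℝ) ≤ ε * T := by
    refine hAε.trans (mul_le_mul_of_nonneg_left ?_ hε.le)
    exact_mod_cast (show A ≤ T by omega)
  have hKn : T * Nat.log 2 n ≤ k := (Nat.mul_le_mul_right _ hTT.le).trans hk1
  have hKk : T * k ≤ n := (Nat.mul_le_mul_right _ hTT.le).trans hk2
  have hkr0 : (0 : ℝ) ≤ k := by positivity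
  have hTk : (T : ℝ) * k ≤ n := by exact_mod_cast hKk
  have hTln : (T : ℝ) * Nat.log 2 n ≤ k := by exact_mod_cast hKn
  refine ⟨?_, ?_, ?_, ?_, ?_⟩
  · refine hεT.trans (mul_le_mul_of_nonneg_left ?_ hε.le)
    exact_mod_cast hTT.le.trans hkK
  · calc 20 * (k : ℝ) ≤ (ε * T) * k := mul_le_mul_of_nonneg_right hεT hkr0
      _ = ε * (T * k) := by ring
      _ ≤ ε * n := mul_le_mul_of_nonneg_left hTk hε.le
  · have : 1 ≤ k := by omega
    exact_mod_cast this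
  · have e6 : (0 : ℝ) ≤ Nat.log 2 n := by positivity
    calc 5 * (Nat.log 2 n : ℝ) ≤ (ε * T) * Nat.log 2 n :=
          mul_le_mul_of_nonneg_right (by linarith) e6
      _ = ε * (T * Nat.log 2 n) := by ring
      _ ≤ ε * k := mul_le_mul_of_nonneg_left hTln hε.le
  · calc C0 ≤ T := hbC
      _ ≤ 2 ^ T := hTT.le
      _ ≤ n := hkK.trans hkn

/-- The number of clauses. -/
theorem clauses {ε : ℝ} {A C0 n k Fc : ℕ} (hA : 1 ≤ A) (hn : 1 ≤ Nat.log 2 n) (hC : C0 ≤ n)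
    (h5 : 5 * (Nat.log 2 n : ℝ) ≤ ε * k) (h1 : A * Fc ≤ (A + 1) * (C0 * n * 2 ^ k)) :
    (Fc : ℝ) ≤ (2 : ℝ) ^ ((1 + ε) * k) := by
  have hnlt : n + 1 ≤ 2 ^ (Nat.log 2 n + 1) := Nat.lt_pow_succ_log_self (by norm_num) n
  have e1 : Fc ≤ 2 ^ (k + 5 * Nat.log 2 n) := by
    have e2 : A * Fc ≤ A * (2 * (C0 * n * 2 ^ k)) := by
      calc A * Fc ≤ (A + 1) * (C0 * n * 2 ^ k) := h1
        _ ≤ (2 * A) * (C0 * n * 2 ^ k) := Nat.mul_le_mul_right _ (by omega)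
        _ = A * (2 * (C0 * n * 2 ^ k)) := by ring
    have e3 := Nat.le_of_mul_le_mul_left e2 (by omega : 0 < A)
    calc Fc ≤ 2 * (C0 * n * 2 ^ k) := e3
      _ ≤ 2 * (n * n * 2 ^ k) := Nat.mul_le_mul_left _
          (Nat.mul_le_mul_right _ (Nat.mul_le_mul_right _ hC))
      _ ≤ 2 ^ 1 * (2 ^ (Nat.log 2 n + 1) * 2 ^ (Nat.log 2 n + 1) * 2 ^ k) := by
          rw [pow_one]
          exact Nat.mul_le_mul_left _ (Nat.mul_le_mul_right _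
            (Nat.mul_le_mul (by omega) (by omega)))
      _ = 2 ^ (1 + (Nat.log 2 n + 1 + (Nat.log 2 n + 1) + k)) := by
          rw [← pow_add, ← pow_add, ← pow_add]
      _ ≤ 2 ^ (k + 5 * Nat.log 2 n) := Nat.pow_le_pow_right (by norm_num) (by omega)
  refine (rpow_nat_le e1).trans (Real.rpow_le_rpow_of_exponent_le (by norm_num) ?_)
  push_cast
  linarith

theorem main_of (hAB : T_AB) (hBAL : T_BAL) : T_MAIN := by
  classical
  intro ε hε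
  obtain ⟨A, hA, hAε⟩ : ∃ A : ℕ, 1 ≤ A ∧ (20 : ℝ) ≤ ε * A := by
    refine ⟨max 1 ⌈20 / ε⌉₊, le_max_left _ _, ?_⟩
    have h1 : 20 / ε ≤ (max 1 ⌈20 / ε⌉₊ : ℕ) :=
      (Nat.le_ceil _).trans (by exact_mod_cast le_max_right _ _)
    rwa [div_le_iff₀' hε] at h1
  obtain ⟨j, hj⟩ : ∃ j, j = 36 * A ^ 2 := ⟨_, rfl⟩
  have hA2 : 1 ≤ A ^ 2 := Nat.one_le_pow _ _ hA
  have hj1 : 1 ≤ j := by omega
  have hjQ : 36 * A ^ 2 ≤ 2 ^ j := by rw [← hj]; exact Nat.lt_two_pow_self.le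
  obtain ⟨C0, n0, hC0, hAB⟩ := hAB A hA
  obtain ⟨T, hT⟩ : ∃ T, T = pT A j C0 := ⟨_, rfl⟩
  refine ⟨2 ^ T, max n0 (2 * A + 2), ?_⟩
  intro n hn k hk1 hk2
  have hT' : pT A j C0 ≤ T := hT.ge
  have hnn0 : n0 ≤ n := (le_max_left _ _).trans hn
  have hnA2 : 2 * A + 2 ≤ n := (le_max_right _ _).trans hn
  have hn2 : 2 ≤ n := by omega
  have hnA : 2 * A ≤ n := by omega
  have hlog : 1 ≤ Nat.log 2 n := (facts hA hj1 hT' hn2 hk1 hk2).1
  obtain ⟨s1, s2, s3, s4, s5⟩ := small hA hε hAε hj1 hT' hn2 hk1 hk2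
  obtain ⟨c1, c2, c3, c4, c5, c6, c7, c8, c9, c10, c11, c12, c13⟩ :=
    conds hA hj1 hjQ hT' hn2 hnA hk1 hk2
  obtain ⟨F, hF2, hF1, hF3, hF4⟩ := hAB n k (pp A n k) (n / pH A j) (n / A) (pr A j k) (pl A j k)
    (2 * pd A j) hnn0 (by omega) c1 c2 c3 c4 c5 c8 c9 c10 c11 c12 c13
  refine ⟨F, hF2, clauses hA hlog s5 s4 hF1, fun z => gap_ineq hA hAε hF1 (hF3 z), ?_⟩
  intro B q s D S hB hq hs hBk hD R hcost v
  obtain ⟨t, m, ht, hDm, hqp, hBt, htn, hf⟩ := bounds hA hj1 hT' hn2 hk1 hk2 hB hq hs hBk hD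
  obtain ⟨f, hfd⟩ : ∃ f, f = rad s (pr A j k) (pp A n k) m (pl A j k) q := ⟨_, rfl⟩
  rw [← hfd] at hf
  have hexpo := expo (f := f) (t := t) hA hj1 hjQ hT' hn2 hnA hk1 hk2 hB hBk hBt hf
  have hQ0 : 0 < (2 ^ j) ^ n := by positivity
  have hBall : ∀ z0 : Fin n → Bool, (Finset.univ.filter
      (fun zs => dis z0 zs ≤ rad s (pr A j k) (pp A n k) m (pl A j k) q)).card ≤
      (2 ^ j) ^ f * (2 ^ j + 1) ^ n / (2 ^ j) ^ n := by
    intro z0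
    rw [Nat.le_div_iff_mul_le hQ0, ← hfd]
    have := hBAL (Fin n) f (2 ^ j) z0 Nat.one_le_two_pow
    rwa [Fintype.card_fin] at this
  have hfin := hF4 t m B q s D S _ (by omega) hqp ht hDm hBall R v
  have hBl := from_ball ((2 ^ j) ^ f * (2 ^ j + 1) ^ n / (2 ^ j) ^ n) j n f
    (Nat.div_mul_le_self _ _)
  have hCr := from_ball (Cr k (pr A j k)) j k (pr A j k)
    (Cr_bound k (pr A j k) (2 ^ j) Nat.one_le_two_pow)
  have hnlt : n + 1 ≤ 2 ^ (Nat.log 2 n + 1) := Nat.lt_pow_succ_log_self (by norm_num) n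
  have hBlt : B + 1 ≤ 2 ^ (Nat.log 2 B + 1) := Nat.lt_pow_succ_log_self (by norm_num) B
  have e2 : t + 1 ≤ 2 ^ (Nat.log 2 n + 1) := by omega
  have e3 : B ^ t ≤ 2 ^ ((Nat.log 2 B + 1) * t) := by
    rw [pow_mul]
    exact Nat.pow_le_pow_left (by omega) _
  have e5 : (t + 1) * (B + 1) ≤ 2 ^ (Nat.log 2 n + 1 + (Nat.log 2 B + 1)) := by
    rw [pow_add]
    exact Nat.mul_le_mul e2 hBlt
  have hAr : (0 : ℝ) < A := by exact_mod_cast hA
  have hAr1 : (1 : ℝ) ≤ A := by exact_mod_cast hA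
  have hcost' : ((S : ℝ) + ((∑ u, (R.E u).card : ℕ) : ℝ)) ≤ (2 : ℝ) ^ ((1 - ε) * n) := by
    have h1 : (R.cost : ℝ) = (S : ℝ) + ((∑ u, (R.E u).card : ℕ) : ℝ) := by
      unfold UDer.cost
      exact Nat.cast_add _ _
    rw [← h1]
    exact hcost.le
  refine final_ineq (x1 := (j : ℝ) * f + (2 / 2 ^ j) * (n : ℝ))
    (x6 := (j : ℝ) * pr A j k + (2 / 2 ^ j) * (k : ℝ)) (by positivity) hfin hBl hCr e2 e3 c6 e5
    ?_ ?_ hcost' s1 s2 s3
  · refine le_of_mul_le_mul_left ?_ hAr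
    have h1 := hexpo.1
    have hn0 : (0 : ℝ) ≤ n := by positivity
    have h2 : 10 * (n : ℝ) ≤ A * (ε * n / 2) := by
      calc 10 * (n : ℝ) = 20 * n / 2 := by ring
        _ ≤ (ε * A) * n / 2 := by
            refine div_le_div_of_nonneg_right ?_ (by norm_num)
            exact mul_le_mul_of_nonneg_right hAε hn0
        _ = A * (ε * n / 2) := by ring
    refine le_trans (le_of_eq ?_) (h1.trans h2)
    ring
  · refine hexpo.2.trans ?_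
    rw [div_le_div_iff₀ (by positivity) (by norm_num)]
    have e1 : (A : ℝ) ≤ A ^ 2 := by nlinarith
    have e6 : (20 : ℝ) ≤ ε * A ^ 2 := hAε.trans (mul_le_mul_of_nonneg_left e1 hε.le)
    have hk0 : (0 : ℝ) ≤ k := by positivity
    calc (k : ℝ) * 60 = 20 * (k * 3) := by ring
      _ ≤ (ε * A ^ 2) * (k * 3) := mul_le_mul_of_nonneg_right e6 (by positivity)
      _ = ε * k * (3 * A ^ 2) := by ring

end Pool.Agent.H78.UN2
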