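import Pool.Agent.H78.UN.FIX
import Pool.Agent.H78.UN.CNT
import Pool.Agent.H78.UN2.ADV
import Pool.Agent.H78.UN2.CNT
import Pool.Agent.H78.UN2.AB
import Pool.Agent.H78.UN2.Main
import Pool.Agent.H79.UN.XN
import Pool.Agent.H79.UN.XP
import Pool.Agent.H79.UN.XB
import Pool.Agent.H22.UN2.FHX
import Pool.Agent.H22.UN2.XG

/-! Assembly of the main theorem, second version. -/

namespace Pool.Agent.H78.UN2

open Pool.Agent.H78.UN

theorem main : T_MAIN :=
  main_of
    (ab (adv fix (sta fix mx) (ste fix mx) bas res) (cnt psc scc) cne sml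
      Pool.Agent.H22.UN2.pf_HC Pool.Agent.H79.UN.xa Pool.Agent.H79.UN.xb
      Pool.Agent.H22.UN2.pf_XC Pool.Agent.H22.UN2.pf_XG Pool.Agent.H22.UN2.pf_FRM)
    bal

end Pool.Agent.H78.UN2

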