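import Pool.Agent.H78.UN2.Fin

/-! Numbers for the main theorem, second version. -/

namespace Pool.Agent.H78.UN2

open Finset Pool.Agent.H78.UN

theorem rpow_nat_le {a : ℕ} {x : ℕ} (h : a ≤ 2 ^ x) : (a : ℝ) ≤ (2 : ℝ) ^ (x : ℝ) := by
  rw [Real.rpow_natCast]
  exact_mod_cast h

/-- The exponent of the bound for the number of exceptional assignments. -/
theorem expo {A j C0 T n k B t f : ℕ} (hA : 1 ≤ A) (hj1 : 1 ≤ j) (hjQ : 36 * A ^ 2 ≤ 2 ^ j)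
    (hT' : pT A j C0 ≤ T) (hn2 : 2 ≤ n) (hnA : 2 * A ≤ n)
    (hk1 : 2 ^ T * Nat.log 2 n ≤ k) (hk2 : 2 ^ T * k ≤ n) (hB : 2 ≤ B)
    (hBk : 2 ^ T * Nat.log 2 B ≤ k)
    (hBt : A * ((Nat.log 2 B + 1) * t) ≤ n) (hf : 2 * j * A * f ≤ 4 * n) :
    (A : ℝ) * (((j : ℝ) * f + (2 / 2 ^ j) * (n : ℝ)) + ((Nat.log 2 n + 1 : ℕ) : ℝ) +
      (((Nat.log 2 B + 1) * t : ℕ) : ℝ) +
      ((py A j n k : ℕ) + ((Nat.log 2 n + 1 + (Nat.log 2 B + 1) : ℕ) : ℝ) +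
        2 * ((j : ℝ) * pr A j k + (2 / 2 ^ j) * (k : ℝ))) * (pp A n k : ℝ) + ((n / A : ℕ) : ℝ)) ≤
      10 * n ∧
    (py A j n k : ℝ) + 2 * ((j : ℝ) * pr A j k + (2 / 2 ^ j) * (k : ℝ)) ≤ k / (3 * A ^ 2) := by
  obtain ⟨h1, hbig, hTT, hkK, hp1, hp2, hbH, hbC, hl3, hl1, hl2⟩ := facts hA hj1 hT' hn2 hk1 hk2
  obtain ⟨c1, c2, c3, c4, c5, c6, c7, c8, c9, c10, c11, c12, c13⟩ :=
    conds hA hj1 hjQ hT' hn2 hnA hk1 hk2
  set p := pp A n k with hp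
  set r := pr A j k with hr
  set β := Nat.log 2 B with hβ
  set ln := Nat.log 2 n with hln
  set e := n / A with he
  set x6 : ℝ := (j : ℝ) * r + (2 / 2 ^ j) * (k : ℝ) with hx6
  have hA2 : 1 ≤ A ^ 2 := Nat.one_le_pow _ _ hA
  have hAr : (0 : ℝ) < A := by exact_mod_cast hA
  have hjr : (0 : ℝ) < j := by exact_mod_cast hj1
  have hQr : (36 : ℝ) * A ^ 2 ≤ 2 ^ j := by exact_mod_cast hjQ
  have hQpos : (0 : ℝ) < 2 ^ j := by positivity
  have hkn : k ≤ n := c9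
  have hd0 : 0 < pd A j := by unfold pd; positivity
  have hA6 : A ≤ j ^ 2 * A ^ 6 := by
    calc A = 1 * A ^ 1 := by ring
      _ ≤ j ^ 2 * A ^ 6 := Nat.mul_le_mul (Nat.one_le_iff_ne_zero.2 (by positivity))
          (Nat.pow_le_pow_right hA (by norm_num))
  have hA26 : A ^ 2 ≤ j ^ 2 * A ^ 6 := by
    calc A ^ 2 = 1 * A ^ 2 := by ring
      _ ≤ j ^ 2 * A ^ 6 := Nat.mul_le_mul (Nat.one_le_iff_ne_zero.2 (by positivity))
          (Nat.pow_le_pow_right hA (by norm_num))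
  have hAT : 400000 * A ≤ T := by
    calc 400000 * A ≤ 400000 * (j ^ 2 * A ^ 6) := Nat.mul_le_mul_left _ hA6
      _ = 400000 * j ^ 2 * A ^ 6 := by ring
      _ ≤ T := hbig
  have hA2T : 400000 * A ^ 2 ≤ T := by
    calc 400000 * A ^ 2 ≤ 400000 * (j ^ 2 * A ^ 6) := Nat.mul_le_mul_left _ hA26
      _ = 400000 * j ^ 2 * A ^ 6 := by ring
      _ ≤ T := hbig
  have hKn : T * ln ≤ k := (Nat.mul_le_mul_right _ hTT.le).trans hk1
  have hKB : T * β ≤ k := (Nat.mul_le_mul_right _ hTT.le).trans hBk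
  have hβ1 : 1 ≤ β := Nat.log_pos (by norm_num) hB
  have b2 : A * (ln + 1) ≤ n := by
    calc A * (ln + 1) ≤ A * (2 * ln) := Nat.mul_le_mul_left _ (by omega)
      _ = 2 * A * ln := by ring
      _ ≤ T * ln := Nat.mul_le_mul_right _ (by omega)
      _ ≤ n := hKn.trans hkn
  have b4 : A * (py A j n k * p) ≤ n := by
    have e1 : A * (py A j n k * p) * (9 * A) ≤ n * (9 * A) := by
      calc A * (py A j n k * p) * (9 * A) = 9 * A ^ 2 * py A j n k * p := by ring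
        _ ≤ k * p := Nat.mul_le_mul_right _ c7
        _ = p * k := mul_comm _ _
        _ ≤ 9 * A * n := hp2
        _ = n * (9 * A) := by ring
    exact Nat.le_of_mul_le_mul_right e1 (by positivity)
  have b5 : A * ((ln + 1 + (β + 1)) * p) ≤ n := by
    have e1 : A * ((ln + 1 + (β + 1)) * p) * (9 * A) ≤ n * (9 * A) := by
      have e2 : 9 * A ^ 2 * (ln + 1 + (β + 1)) ≤ k := by
        have e3 : 2 * (18 * A ^ 2 * ln) ≤ k := by
          calc 2 * (18 * A ^ 2 * ln) = 36 * A ^ 2 * ln := by ring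
            _ ≤ T * ln := Nat.mul_le_mul_right _ (by omega)
            _ ≤ k := hKn
        have e4 : 2 * (18 * A ^ 2 * β) ≤ k := by
          calc 2 * (18 * A ^ 2 * β) = 36 * A ^ 2 * β := by ring
            _ ≤ T * β := Nat.mul_le_mul_right _ (by omega)
            _ ≤ k := hKB
        calc 9 * A ^ 2 * (ln + 1 + (β + 1)) ≤ 9 * A ^ 2 * (2 * ln + 2 * β) :=
              Nat.mul_le_mul_left _ (by omega)
          _ = 18 * A ^ 2 * ln + 18 * A ^ 2 * β := by ring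
          _ ≤ k := by omega
      calc A * ((ln + 1 + (β + 1)) * p) * (9 * A) = 9 * A ^ 2 * (ln + 1 + (β + 1)) * p := by ring
        _ ≤ k * p := Nat.mul_le_mul_right _ e2
        _ = p * k := mul_comm _ _
        _ ≤ 9 * A * n := hp2
        _ = n * (9 * A) := by ring
    exact Nat.le_of_mul_le_mul_right e1 (by positivity)
  have hrd : r * pd A j ≤ k := Nat.div_mul_le_self _ _
  have b6 : 2 * j * A * (r * p) ≤ n := by
    have e1 : 2 * j * A * (r * p) * (9 * A) ≤ n * (9 * A) := by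
      calc 2 * j * A * (r * p) * (9 * A) = r * pd A j * p := by unfold pd; ring
        _ ≤ k * p := Nat.mul_le_mul_right _ hrd
        _ = p * k := mul_comm _ _
        _ ≤ 9 * A * n := hp2
        _ = n * (9 * A) := by ring
    exact Nat.le_of_mul_le_mul_right e1 (by positivity)
  have b7 : A * e ≤ n := by rw [he, mul_comm]; exact Nat.div_mul_le_self _ _
  -- casts
  have r1 : (2 : ℝ) * j * A * f ≤ 4 * n := by exact_mod_cast hf
  have r2 : (A : ℝ) * ((ln + 1 : ℕ) : ℝ) ≤ n := by exact_mod_cast b2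
  have r3 : (A : ℝ) * (((β + 1) * t : ℕ) : ℝ) ≤ n := by exact_mod_cast hBt
  have r4 : (A : ℝ) * ((py A j n k : ℕ) * (p : ℝ)) ≤ n := by exact_mod_cast b4
  have r5 : (A : ℝ) * (((ln + 1 + (β + 1) : ℕ) : ℝ) * (p : ℝ)) ≤ n := by exact_mod_cast b5
  have r6 : (2 : ℝ) * j * A * (r * p) ≤ n := by exact_mod_cast b6
  have r7 : (A : ℝ) * e ≤ n := by exact_mod_cast b7
  have r8 : (k : ℝ) * p ≤ 9 * A * n := by
    have : k * p ≤ 9 * A * n := by rw [mul_comm]; exact hp2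
    exact_mod_cast this
  have hn0 : (0 : ℝ) ≤ n := by positivity
  have hk0 : (0 : ℝ) ≤ k := by positivity
  have e0 : (2 : ℝ) / 2 ^ j ≤ 1 / (18 * A ^ 2) := by
    rw [div_le_div_iff₀ hQpos (by positivity)]
    linarith
  have q1 : A * (2 / 2 ^ j * (n : ℝ)) ≤ n / 18 := by
    have e2 : A * (2 / 2 ^ j * (n : ℝ)) ≤ A * (1 / (18 * A ^ 2) * (n : ℝ)) := by
      refine mul_le_mul_of_nonneg_left (mul_le_mul_of_nonneg_right e0 hn0) hAr.le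
    refine e2.trans ?_
    have e3 : (A : ℝ) * (1 / (18 * A ^ 2) * n) = n / 18 / A := by
      field_simp
    rw [e3]
    refine div_le_self (by positivity) ?_
    exact_mod_cast hA
  have q2 : A * (2 / 2 ^ j * ((k : ℝ) * p)) ≤ n / 2 := by
    have e2 : A * (2 / 2 ^ j * ((k : ℝ) * p)) ≤ A * (1 / (18 * A ^ 2) * (9 * A * n)) := by
      refine mul_le_mul_of_nonneg_left (mul_le_mul e0 r8 (by positivity) (by positivity)) hAr.le
    refine e2.trans (le_of_eq ?_)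
    field_simp
    ring
  constructor
  · have s1 : A * ((j : ℝ) * f + (2 / 2 ^ j) * (n : ℝ)) =
        (1 / 2) * (2 * j * A * f) + A * (2 / 2 ^ j * (n : ℝ)) := by ring
    have s2 : (A : ℝ) * (2 * x6 * p) = (2 * j * A * (r * p)) + 2 * (A * (2 / 2 ^ j * ((k : ℝ) * p))) := by
      rw [hx6]; ring
    have s3 : (A : ℝ) * (((j : ℝ) * f + (2 / 2 ^ j) * (n : ℝ)) + ((ln + 1 : ℕ) : ℝ) +
        (((β + 1) * t : ℕ) : ℝ) +
        ((py A j n k : ℕ) + ((ln + 1 + (β + 1) : ℕ) : ℝ) + 2 * x6) * (p : ℝ) + (e : ℝ)) =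
        A * ((j : ℝ) * f + (2 / 2 ^ j) * (n : ℝ)) + A * ((ln + 1 : ℕ) : ℝ) +
        A * (((β + 1) * t : ℕ) : ℝ) +
        A * ((py A j n k : ℕ) * (p : ℝ)) + A * (((ln + 1 + (β + 1) : ℕ) : ℝ) * (p : ℝ)) +
        A * (2 * x6 * p) + A * e := by ring
    rw [s3, s1, s2]
    linarith
  · have g1 : (9 : ℝ) * A ^ 2 * py A j n k ≤ k := by exact_mod_cast c7
    have g2 : (18 : ℝ) * A ^ 2 * (j * r) ≤ k := by
      have : 18 * A ^ 2 * (j * r) ≤ k := by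
        calc 18 * A ^ 2 * (j * r) = r * pd A j := by unfold pd; ring
          _ ≤ k := hrd
      exact_mod_cast this
    have g3 : (18 : ℝ) * A ^ 2 * ((2 / 2 ^ j) * k) ≤ k := by
      calc (18 : ℝ) * A ^ 2 * ((2 / 2 ^ j) * k) ≤ 18 * A ^ 2 * (1 / (18 * A ^ 2) * k) :=
            mul_le_mul_of_nonneg_left (mul_le_mul_of_nonneg_right e0 hk0) (by positivity)
        _ = k := by field_simp
    rw [le_div_iff₀ (by positivity), hx6]
    nlinarith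

/-- The final inequality. -/
theorem final_ineq {ε x1 x6 : ℝ} {n k p e S sE Av Bl M B t C g1 g2 g3 y : ℕ}
    (hx6 : 0 ≤ x6)
    (hfin : Av * 2 ^ k ≤ Bl * (S * ((t + 1) * B ^ t) *
      ((M * ((t + 1) * (B + 1)) * C ^ 2) ^ p * 2 ^ e)) * 2 ^ k + Bl * sE * 2 ^ k + M * C ^ 2 * 2 ^ n)
    (hBl : (Bl : ℝ) ≤ (2 : ℝ) ^ x1) (hC : (C : ℝ) ≤ (2 : ℝ) ^ x6)
    (e2 : t + 1 ≤ 2 ^ g1) (e3 : B ^ t ≤ 2 ^ g2) (e4 : M ≤ 2 ^ y)
    (e5 : (t + 1) * (B + 1) ≤ 2 ^ g3)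
    (hXε : x1 + ((g1 : ℝ) + g2 + (y + g3 + 2 * x6) * (p : ℝ) + (e : ℝ)) ≤ ε * n / 2)
    (hYε : (y : ℝ) + 2 * x6 ≤ ε * k / 60)
    (hcost : ((S : ℝ) + sE) ≤ (2 : ℝ) ^ ((1 - ε) * n))
    (hεk : (20 : ℝ) ≤ ε * k) (hεn : 20 * (k : ℝ) ≤ ε * n) (hk1 : (1 : ℝ) ≤ k) :
    (Av : ℝ) ≤ (2 : ℝ) ^ (n - (1 - ε) * k) := by
  have e2' : ((t + 1 : ℕ) : ℝ) ≤ (2 : ℝ) ^ (g1 : ℝ) := rpow_nat_le e2
  have e3' : ((B ^ t : ℕ) : ℝ) ≤ (2 : ℝ) ^ (g2 : ℝ) := rpow_nat_le e3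
  have e4' : ((M : ℕ) : ℝ) ≤ (2 : ℝ) ^ (y : ℝ) := rpow_nat_le e4
  have e5' : (((t + 1) * (B + 1) : ℕ) : ℝ) ≤ (2 : ℝ) ^ (g3 : ℝ) := rpow_nat_le e5
  have hpow : ((M : ℝ) * (((t + 1) * (B + 1) : ℕ) : ℝ) * (C : ℝ) ^ 2) ^ p ≤
      (2 : ℝ) ^ (((y : ℝ) + g3 + 2 * x6) * (p : ℝ)) := by
    rw [Real.rpow_mul (by norm_num), Real.rpow_natCast]
    refine pow_le_pow_left₀ (by positivity) ?_ p
    rw [Real.rpow_add (by norm_num), Real.rpow_add (by norm_num)]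
    refine mul_le_mul (mul_le_mul e4' e5' (by positivity) (by positivity)) ?_ (by positivity)
      (by positivity)
    calc (C : ℝ) ^ 2 ≤ ((2 : ℝ) ^ x6) ^ 2 := pow_le_pow_left₀ (by positivity) hC 2
      _ = (2 : ℝ) ^ (2 * x6) := by
          rw [← Real.rpow_natCast, ← Real.rpow_mul (by norm_num)]
          congr 1
          push_cast
          ring
  obtain ⟨X', hX'⟩ : ∃ X' : ℝ, X' = (g1 : ℝ) + g2 + (y + g3 + 2 * x6) * (p : ℝ) + (e : ℝ) :=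
    ⟨_, rfl⟩
  have hX'0 : 0 ≤ X' := by rw [hX']; positivity
  rw [← hX'] at hXε
  -- the two parts
  have hpart : ((t + 1 : ℕ) : ℝ) * ((B ^ t : ℕ) : ℝ) *
      (((M : ℝ) * (((t + 1) * (B + 1) : ℕ) : ℝ) * (C : ℝ) ^ 2) ^ p * (2 : ℝ) ^ e) ≤
      (2 : ℝ) ^ X' := by
    have h1 : (2 : ℝ) ^ X' = (2 : ℝ) ^ (g1 : ℝ) * (2 : ℝ) ^ (g2 : ℝ) *
        ((2 : ℝ) ^ (((y : ℝ) + g3 + 2 * x6) * (p : ℝ)) * (2 : ℝ) ^ e) := by
      rw [hX', Real.rpow_add (by norm_num), Real.rpow_add (by norm_num),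
        Real.rpow_add (by norm_num), Real.rpow_natCast 2 e]
      ring
    rw [h1]
    exact mul_le_mul (mul_le_mul e2' e3' (by positivity) (by positivity))
      (mul_le_mul_of_nonneg_right hpow (by positivity)) (by positivity) (by positivity)
  have hreal : (Av : ℝ) * 2 ^ k ≤ ((S : ℝ) + sE) * (2 : ℝ) ^ (x1 + X') * 2 ^ k +
      (2 : ℝ) ^ ((y : ℝ) + 2 * x6) * 2 ^ n := by
    have hcast : (Av : ℝ) * 2 ^ k ≤ (Bl : ℝ) * (S * (((t + 1 : ℕ) : ℝ) * ((B ^ t : ℕ) : ℝ)) *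
        (((M : ℝ) * (((t + 1) * (B + 1) : ℕ) : ℝ) * (C : ℝ) ^ 2) ^ p * (2 : ℝ) ^ e)) * 2 ^ k +
        (Bl : ℝ) * sE * 2 ^ k + (M : ℝ) * (C : ℝ) ^ 2 * 2 ^ n := by
      exact_mod_cast hfin
    refine hcast.trans ?_
    have hS0 : (0 : ℝ) ≤ S := by positivity
    have hE0 : (0 : ℝ) ≤ sE := by positivity
    have w1 : (Bl : ℝ) * (S * (((t + 1 : ℕ) : ℝ) * ((B ^ t : ℕ) : ℝ)) *
        (((M : ℝ) * (((t + 1) * (B + 1) : ℕ) : ℝ) * (C : ℝ) ^ 2) ^ p * (2 : ℝ) ^ e)) ≤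
        S * (2 : ℝ) ^ (x1 + X') := by
      rw [Real.rpow_add (by norm_num)]
      calc (Bl : ℝ) * (S * (((t + 1 : ℕ) : ℝ) * ((B ^ t : ℕ) : ℝ)) *
        (((M : ℝ) * (((t + 1) * (B + 1) : ℕ) : ℝ) * (C : ℝ) ^ 2) ^ p * (2 : ℝ) ^ e)) =
          S * ((Bl : ℝ) * (((t + 1 : ℕ) : ℝ) * ((B ^ t : ℕ) : ℝ) *
        (((M : ℝ) * (((t + 1) * (B + 1) : ℕ) : ℝ) * (C : ℝ) ^ 2) ^ p * (2 : ℝ) ^ e))) := by
            ring
        _ ≤ S * ((2 : ℝ) ^ x1 * (2 : ℝ) ^ X') :=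
            mul_le_mul_of_nonneg_left (mul_le_mul hBl hpart (by positivity) (by positivity)) hS0
    have w2 : (Bl : ℝ) * sE ≤ sE * (2 : ℝ) ^ (x1 + X') := by
      rw [mul_comm]
      refine mul_le_mul_of_nonneg_left (hBl.trans ?_) hE0
      exact Real.rpow_le_rpow_of_exponent_le (by norm_num) (by linarith)
    have w3 : (M : ℝ) * (C : ℝ) ^ 2 ≤ (2 : ℝ) ^ ((y : ℝ) + 2 * x6) := by
      rw [Real.rpow_add (by norm_num)]
      refine mul_le_mul e4' ?_ (by positivity) (by positivity)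
      calc (C : ℝ) ^ 2 ≤ ((2 : ℝ) ^ x6) ^ 2 := pow_le_pow_left₀ (by positivity) hC 2
        _ = (2 : ℝ) ^ (2 * x6) := by
            rw [← Real.rpow_natCast, ← Real.rpow_mul (by norm_num)]
            congr 1
            push_cast
            ring
    have h2k : (0 : ℝ) ≤ 2 ^ k := by positivity
    have h2n : (0 : ℝ) ≤ 2 ^ n := by positivity
    calc (Bl : ℝ) * (S * (((t + 1 : ℕ) : ℝ) * ((B ^ t : ℕ) : ℝ)) *
        (((M : ℝ) * (((t + 1) * (B + 1) : ℕ) : ℝ) * (C : ℝ) ^ 2) ^ p * (2 : ℝ) ^ e)) * 2 ^ k +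
        (Bl : ℝ) * sE * 2 ^ k + (M : ℝ) * (C : ℝ) ^ 2 * 2 ^ n
        ≤ S * (2 : ℝ) ^ (x1 + X') * 2 ^ k + sE * (2 : ℝ) ^ (x1 + X') * 2 ^ k +
          (2 : ℝ) ^ ((y : ℝ) + 2 * x6) * 2 ^ n :=
          add_le_add (add_le_add (mul_le_mul_of_nonneg_right w1 h2k)
            (mul_le_mul_of_nonneg_right w2 h2k)) (mul_le_mul_of_nonneg_right w3 h2n)
      _ = _ := by ring
  -- the exponents
  have hnr : ((2 : ℝ) ^ n) = (2 : ℝ) ^ (n : ℝ) := (Real.rpow_natCast _ _).symm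
  have hkr : ((2 : ℝ) ^ k) = (2 : ℝ) ^ (k : ℝ) := (Real.rpow_natCast _ _).symm
  have t1 : ((S : ℝ) + sE) * (2 : ℝ) ^ (x1 + X') * 2 ^ k ≤ (2 : ℝ) ^ (n - (1 - ε) * k - 1 + k) := by
    rw [hkr]
    calc ((S : ℝ) + sE) * (2 : ℝ) ^ (x1 + X') * (2 : ℝ) ^ (k : ℝ)
        ≤ (2 : ℝ) ^ ((1 - ε) * n) * (2 : ℝ) ^ (ε * n / 2) * (2 : ℝ) ^ (k : ℝ) := by
          refine mul_le_mul_of_nonneg_right (mul_le_mul hcost ?_ (by positivity) (by positivity))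
            (by positivity)
          exact Real.rpow_le_rpow_of_exponent_le (by norm_num) hXε
      _ = (2 : ℝ) ^ ((1 - ε) * n + ε * n / 2 + k) := by
          rw [← Real.rpow_add (by norm_num), ← Real.rpow_add (by norm_num)]
      _ ≤ _ := by
          refine Real.rpow_le_rpow_of_exponent_le (by norm_num) ?_
          nlinarith
  have t2 : (2 : ℝ) ^ ((y : ℝ) + 2 * x6) * 2 ^ n ≤ (2 : ℝ) ^ (n - (1 - ε) * k - 1 + k) := by
    rw [hnr, ← Real.rpow_add (by norm_num)]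
    refine Real.rpow_le_rpow_of_exponent_le (by norm_num) ?_
    linarith
  have hsum : (Av : ℝ) * (2 : ℝ) ^ (k : ℝ) ≤ (2 : ℝ) ^ (n - (1 - ε) * k) * (2 : ℝ) ^ (k : ℝ) := by
    rw [← hkr]
    refine hreal.trans ((add_le_add t1 t2).trans (le_of_eq ?_))
    rw [hkr, ← Real.rpow_add (by norm_num)]
    have e7 : (n : ℝ) - (1 - ε) * k - 1 + k = (n - (1 - ε) * k + k) - 1 := by ring
    rw [e7, Real.rpow_sub (by norm_num), Real.rpow_one]
    ring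
  exact le_of_mul_le_mul_right hsum (by positivity)

/-- The gap. -/
theorem gap_ineq {ε : ℝ} {A N0 Fc fa k : ℕ} (hA : 1 ≤ A) (hAε : (20 : ℝ) ≤ ε * A)
    (h1 : A * Fc ≤ (A + 1) * (N0 * 2 ^ k)) (h2 : (A - 1) * N0 ≤ A * fa) :
    (1 - ε) * (Fc : ℝ) ≤ 2 ^ k * (fa : ℝ) := by
  have hAr : (0 : ℝ) < A := by exact_mod_cast hA
  have g1 : (A : ℝ) * Fc ≤ (A + 1) * (N0 * 2 ^ k) := by exact_mod_cast h1
  have g2 : ((A : ℝ) - 1) * N0 ≤ A * fa := by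
    have e1 : (((A - 1 : ℕ) : ℝ)) * N0 ≤ A * fa := by exact_mod_cast h2
    rwa [Nat.cast_sub hA, Nat.cast_one] at e1
  have h2k : (0 : ℝ) < 2 ^ k := by positivity
  have hN0p : (0 : ℝ) ≤ N0 := by positivity
  rcases le_or_gt ε 1 with hε1 | hε1
  · refine le_of_mul_le_mul_left ?_ hAr
    calc (A : ℝ) * ((1 - ε) * Fc) = (1 - ε) * (A * Fc) := by ring
      _ ≤ (1 - ε) * ((A + 1) * (N0 * 2 ^ k)) :=
          mul_le_mul_of_nonneg_left g1 (by linarith)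
      _ = ((1 - ε) * (A + 1)) * N0 * 2 ^ k := by ring
      _ ≤ (A - 1) * N0 * 2 ^ k := by
          refine mul_le_mul_of_nonneg_right (mul_le_mul_of_nonneg_right ?_ hN0p) h2k.le
          have : 0 < ε := by
            by_contra hc
            nlinarith [not_lt.1 hc]
          nlinarith
      _ ≤ (A * fa) * 2 ^ k := mul_le_mul_of_nonneg_right g2 h2k.le
      _ = A * (2 ^ k * fa) := by ring
  · have e1 : (1 - ε) * (Fc : ℝ) ≤ 0 :=
      mul_nonpos_of_nonpos_of_nonneg (by linarith) (by positivity)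
    have e2 : (0 : ℝ) ≤ 2 ^ k * (fa : ℝ) := by positivity
    linarith

end Pool.Agent.H78.UN2
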