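import Pool.Agent.H78.UN2.Final

/-!
# Derivations with unate lines: the definitions of the final statement
-/

namespace Pool.Agent.H78.UN2

open Finset Pool.Agent.H78.UN

/-- A set `A` of assignments is unate in the variables `W` and does not depend on the other
variables: for some `o`, if `z` is in `A` and `z'` is obtained from `z` by replacing the values at
some variables of `W` by those of `o`, and by changing the values of variables outside `W` in any
way, then `z'` is in `A`. -/
def Unate {V : Type} (A : Set (V → Bool)) (W : Finset V) : Prop :=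
  ∃ o : V → Bool, ∀ z ∈ A, ∀ z' : V → Bool, (∀ x ∈ W, z' x = z x ∨ z' x = o x) → z' ∈ A

/-- `A` is the set of the 0/1 assignments which violate a linear inequality
`∑ x, a x * x ≥ b` in variables of `W`. -/
def Ineq {V : Type} [Fintype V] (A : Set (V → Bool)) (W : Finset V) : Prop :=
  ∃ (a : V → ℝ) (b : ℝ), (∀ x, a x ≠ 0 → x ∈ W) ∧
    A = {z | ∑ x, (if z x = true then a x else 0) < b}

/-- A semantic dag-like derivation from the CNF formula `F` with `S` lines.

* `A v` is the set of the assignments which falsify line `v`, and `W v` is a set of variables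
  which contains the variables of line `v`.
* `E v` is a set of assignments which are ignored when line `v` is inferred (brute force).
* Every line either follows (outside `E v`) from at most `q` clauses of `F`, or it follows
  (outside `E v`) from at most `B` earlier lines, which can be used many times.
* A line is light if `W v` has at most `s` elements, and heavy otherwise. The number `run v`
  bounds the number of consecutive heavy lines directly after line `v` on a path from a line to
  one of its premises. So on every path each block of consecutive heavy lines after the first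
  line of the path has length at most `D`. -/
structure Der {V : Type} [DecidableEq V] (F : Finset (Clause V)) (B q s D S : ℕ) where
  A : Fin S → Set (V → Bool)
  W : Fin S → Finset V
  E : Fin S → Finset (V → Bool)
  run : Fin S → ℕ
  run_le : ∀ v, run v ≤ D
  rule : ∀ v,
    (∃ Q : Finset (Clause V), Q ⊆ F ∧ Q.card ≤ q ∧
      ∀ z ∈ A v, z ∉ E v → ∃ C ∈ Q, Falsified C z) ∨
    (∃ P : Finset (Fin S), P.card ≤ B ∧
      (∀ a ∈ P, a < v ∧ ((W a).card ≤ s ∨ run a < run v)) ∧
      ∀ z ∈ A v, z ∉ E v → ∃ a ∈ P, z ∈ A a)

/-- The cost of a derivation: the number of lines plus the number of assignments treated by brute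
force. -/
def Der.cost {V : Type} [DecidableEq V] {F : Finset (Clause V)} {B q s D S : ℕ}
    (R : Der F B q s D S) : ℕ := S + ∑ v, (R.E v).card

/-- Linear inequalities are unate. -/
theorem Ineq.unate {V : Type} [Fintype V] {A : Set (V → Bool)} {W : Finset V}
    (h : Ineq A W) : Unate A W := by
  obtain ⟨a, b, ha, rfl⟩ := h
  refine ⟨fun x => decide (a x < 0), ?_⟩
  intro z hz z' hz'
  have hz2 : ∑ x, (if z x = true then a x else 0) < b := hz
  show ∑ x, (if z' x = true then a x else 0) < b
  refine lt_of_le_of_lt (Finset.sum_le_sum fun x _ => ?_) hz2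
  by_cases hx : x ∈ W
  · rcases hz' x hx with h | h
    · rw [h]
    · rw [h]
      by_cases hn : a x < 0
      · simp only [hn, decide_true, if_true]
        split_ifs
        · exact le_refl _
        · exact hn.le
      · simp only [hn, decide_false, Bool.false_eq_true, if_false]
        split_ifs
        · exact not_lt.1 hn
        · exact le_refl _
  · have h0 : a x = 0 := by
      by_contra hne
      exact hx (ha x hne)
    simp [h0]

open Classical in
/-- The final statement. -/
theorem final : ∀ ε : ℝ, 0 < ε → ∃ K n₀ : ℕ, ∀ n, n₀ ≤ n → ∀ w : ℕ,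
    K * Nat.log 2 n ≤ w → K * w ≤ n →
    ∃ F : Finset (Clause (Fin n)), (∀ C ∈ F, C.card = w) ∧
      (F.card : ℝ) ≤ (2 : ℝ) ^ ((1 + ε) * w) ∧
      (∀ z, (1 - ε) * F.card ≤ 2 ^ w * (F.filter (fun C => Falsified C z)).card) ∧
      ∀ B q s D S : ℕ, 2 ≤ B → K * q ≤ n → K * s ≤ n → K * Nat.log 2 B ≤ w →
        K * (D * Nat.log 2 B) ≤ n * w →
        ∀ R : Der F B q s D S, (∀ v, Unate (R.A v) (R.W v) ∨ Ineq (R.A v) (R.W v)) →
          (R.cost : ℝ) < (2 : ℝ) ^ ((1 - ε) * n) → ∀ v,
            ((Finset.univ.filter (fun z => z ∈ R.A v)).card : ℝ) ≤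
              (2 : ℝ) ^ (n - (1 - ε) * w) := by
  intro ε hε
  obtain ⟨K, n₀, h⟩ := main ε hε
  refine ⟨K, n₀, ?_⟩
  intro n hn w hw1 hw2
  obtain ⟨F, hF1, hF2, hF3, hF4⟩ := h n hn w hw1 hw2
  refine ⟨F, hF1, hF2, hF3, ?_⟩
  intro B q s D S hB hq hs hBw hD R hR hcost v
  have hU : ∀ v, Unate (R.A v) (R.W v) := fun v => (hR v).elim id Ineq.unate
  choose o ho using hU
  exact hF4 B q s D S hB hq hs hBw hD
    { A := R.A, W := R.W, o := o, unate := ho, E := R.E, run := R.run, run_le := R.run_le,
      rule := R.rule } hcost v

end Pool.Agent.H78.UN2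

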